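import Mathlib
import Pool.Agent.R528.RM.Pat2
import Pool.Agent.R528.RM.Gold
import Pool.Agent.R528.RM.Wag0

set_option autoImplicit false
set_option linter.unusedSectionVars false
set_option linter.unusedVariables false

/-! # Prescribed behaviour at given finite sets of places -/

open MeasureTheory Filter Set
open scoped ENNReal Topology

namespace Pool.Agent.R481.RM

open Pool.Agent.R528.RM

variable {Ω : Type} {m0 : MeasurableSpace Ω} {μ : Measure Ω} [IsProbabilityMeasure μ]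
  {ℱ : Filtration ℕ m0} {A : ℕ → Set Ω}

/-- among the integers of `C` exactly those of `O` are chosen -/
def CylE (A : ℕ → Set Ω) (O C : Finset ℕ) : Set Ω := {ω | ∀ n ∈ C, (ω ∈ A n ↔ n ∈ O)}

/-- a violation just before an integer of `C` -/
def VC (V : ℕ → Set Ω) (C : Finset ℕ) : Set Ω := {ω | ∃ n ∈ C, ω ∈ V (n - 1)}

lemma CylE_meas (hA : ∀ n, MeasurableSet[ℱ n] (A n)) (O C : Finset ℕ) {m : ℕ} (hm : ∀ n ∈ C, n ≤ m) :
    MeasurableSet[ℱ m] (CylE A O C) := by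
  classical
  have h1 : CylE A O C = ⋂ n ∈ C, (if n ∈ O then A n else (A n)ᶜ) := by
    ext ω
    simp only [CylE, mem_ofPred_eq, mem_iInter]
    refine forall₂_congr fun i _ => ?_
    split_ifs with h
    · simp [h]
    · simp [h]
  rw [h1]
  refine Finset.measurableSet_biInter _ fun i hi => ?_
  have h2 : MeasurableSet[ℱ m] (A i) := ℱ.mono (hm i hi) _ (hA _)
  split_ifs
  · exact h2
  · exact @MeasurableSet.compl _ _ (ℱ m) h2

lemma VC_meas {V : ℕ → Set Ω} (hV : ∀ n, MeasurableSet[ℱ n] (V n)) (C : Finset ℕ) {m : ℕ} (hm : ∀ n ∈ C, n ≤ m) :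
    MeasurableSet[ℱ m] (VC V C) := by
  have h1 : VC V C = ⋃ n ∈ C, V (n - 1) := by
    ext ω
    simp only [VC, mem_ofPred_eq, mem_iUnion, exists_prop]
  rw [h1]
  exact Finset.measurableSet_biUnion _ fun i hi => ℱ.mono ((Nat.sub_le i 1).trans (hm i hi)) _ (hV _)

/-- lower bound for the probability of a cylinder, up to violations -/
theorem cyl_ge (hA : ∀ n, MeasurableSet[ℱ n] (A n)) {l u : ℕ → ℝ} (hl0 : ∀ n, 0 ≤ l n) (hl1 : ∀ n, l n ≤ 1) (hu0 : ∀ n, 0 ≤ u n)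
    (hu1 : ∀ n, u n ≤ 1) (O C : Finset ℕ) : ∀ t, (∀ n ∈ C, t < n) → ∀ B, MeasurableSet[ℱ t] B →
      (∏ n ∈ C, (if n ∈ O then l n else 1 - u n)) * μ.real B ≤ μ.real (B ∩ (CylE A O C ∪ VC (VB μ ℱ A l u) C)) := by
  have hf01 : ∀ n, 0 ≤ (if n ∈ O then l n else 1 - u n) ∧ (if n ∈ O then l n else 1 - u n) ≤ 1 := by
    intro n
    have := hl0 n
    have := hl1 n
    have := hu0 n
    have := hu1 n
    split_ifs <;> constructor <;> linarith
  induction C using Finset.induction_on_max with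
  | empty =>
    intro t _ B hB
    have : B ∩ (CylE A O ∅ ∪ VC (VB μ ℱ A l u) ∅) = B := by
      ext ω
      simp [CylE]
    rw [this, Finset.prod_empty, one_mul]
  | insert g C hg ih =>
    intro t ht B hB
    set V := VB μ ℱ A l u with hV
    have hVm : ∀ n, MeasurableSet[ℱ n] (V n) := fun n => VB_meas l u n
    have hgC : g ∉ C := fun h => lt_irrefl _ (hg g h)
    have htg : t < g := ht g (Finset.mem_insert_self _ _)
    have hg1 : g - 1 + 1 = g := by omega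
    have h1 := ih t (fun n hn => ht n (Finset.mem_insert_of_mem hn)) B hB
    have hCg : ∀ n ∈ C, n ≤ g - 1 := fun n hn => by have := hg n hn; omega
    set B' : Set Ω := B ∩ (CylE A O C ∪ VC V C) with hB'
    have hB'm : MeasurableSet[ℱ (g - 1)] B' :=
      (ℱ.mono (by omega) _ hB).inter ((CylE_meas hA O C hCg).union (VC_meas hVm C hCg))
    set B₁ : Set Ω := B' \ V (g - 1) with hB₁
    have hB₁m : MeasurableSet[ℱ (g - 1)] B₁ := hB'm.diff (hVm _)
    set E : Set Ω := if g ∈ O then A g else (A g)ᶜ with hE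
    have hEm : MeasurableSet E := by
      rw [hE]
      split_ifs
      · exact ℱ.le _ _ (hA _)
      · exact (ℱ.le _ _ (hA _)).compl
    set p : ℝ := if g ∈ O then l g else 1 - u g with hp
    have h2 : p * μ.real B₁ ≤ μ.real (B₁ ∩ E) := by
      have hb : ∀ ω ∈ B₁, l g ≤ dens μ ℱ A (g - 1) ω ∧ dens μ ℱ A (g - 1) ω ≤ u g := by
        rintro ω ⟨_, h⟩
        by_contra hcon
        apply h
        show ¬ (l (g - 1 + 1) ≤ dens μ ℱ A (g - 1) ω ∧ dens μ ℱ A (g - 1) ω ≤ u (g - 1 + 1))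
        rwa [hg1]
      rw [hp, hE]
      by_cases h : g ∈ O
      · rw [if_pos h, if_pos h]
        have := lower_meas (μ := μ) hA (g - 1) hB₁m fun ω hω => (hb ω hω).1
        rwa [hg1] at this
      · rw [if_neg h, if_neg h]
        have g1 := upper_meas (μ := μ) hA (g - 1) hB₁m fun ω hω => (hb ω hω).2
        rw [hg1] at g1
        have g2 := measureReal_inter_add_sdiff (μ := μ) (s := B₁) (ℱ.le _ _ (hA g))
        rw [show B₁ ∩ (A g)ᶜ = B₁ \ A g from rfl]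
        linarith
    have h3 : B ∩ (CylE A O (insert g C) ∪ VC V (insert g C)) ⊇ (B' ∩ V (g - 1)) ∪ (B₁ ∩ E) := by
      rintro ω (⟨g1, g2⟩ | ⟨⟨g1, g2⟩, g3⟩)
      · exact ⟨g1.1, Or.inr ⟨g, Finset.mem_insert_self _ _, g2⟩⟩
      · refine ⟨g1.1, ?_⟩
        rcases g1.2 with g4 | ⟨n, g4, g5⟩
        · left
          intro n hn
          rcases Finset.mem_insert.1 hn with rfl | hn
          · rw [hE] at g3
            by_cases h : n ∈ O
            · rw [if_pos h] at g3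
              exact ⟨fun _ => h, fun _ => g3⟩
            · rw [if_neg h] at g3
              exact ⟨fun h' => absurd h' g3, fun h' => absurd h' h⟩
          · exact g4 n hn
        · exact Or.inr ⟨n, Finset.mem_insert_of_mem g4, g5⟩
    have h4 : μ.real ((B' ∩ V (g - 1)) ∪ (B₁ ∩ E)) = μ.real (B' ∩ V (g - 1)) + μ.real (B₁ ∩ E) := by
      rw [measureReal_union _ ((ℱ.le _ _ hB₁m).inter hEm)]
      rw [Set.disjoint_left]
      rintro ω ⟨_, g2⟩ ⟨⟨_, g1⟩, _⟩
      exact g1 g2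
    have h5 := measureReal_mono (μ := μ) h3 (measure_ne_top _ _)
    rw [h4] at h5
    have h6 := measureReal_inter_add_sdiff (μ := μ) (s := B') (ℱ.le _ _ (hVm (g - 1)))
    have h8 : 0 ≤ μ.real (B' ∩ V (g - 1)) := measureReal_nonneg
    have hp01 := hf01 g
    rw [← hp] at hp01
    rw [Finset.prod_insert hgC, ← hp]
    calc p * (∏ n ∈ C, (if n ∈ O then l n else 1 - u n)) * μ.real B
        = p * ((∏ n ∈ C, (if n ∈ O then l n else 1 - u n)) * μ.real B) := by ring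
      _ ≤ p * μ.real B' := mul_le_mul_of_nonneg_left h1 hp01.1
      _ = p * μ.real (B' ∩ V (g - 1)) + p * μ.real B₁ := by rw [← h6]; ring
      _ ≤ 1 * μ.real (B' ∩ V (g - 1)) + μ.real (B₁ ∩ E) := add_le_add (mul_le_mul_of_nonneg_right hp01.2 h8) h2
      _ ≤ _ := by linarith

/-- cylinders over successive blocks with a divergent sum of probabilities recur -/
theorem cyl_io (hA : ∀ n, MeasurableSet[ℱ n] (A n)) {l u : ℕ → ℝ} (hl0 : ∀ n, 0 ≤ l n) (hl1 : ∀ n, l n ≤ 1) (hu0 : ∀ n, 0 ≤ u n)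
    (hu1 : ∀ n, u n ≤ 1) (hV : ∀ᵐ ω ∂μ, ∀ᶠ n in atTop, ω ∉ VB μ ℱ A l u n) (O C : ℕ → Finset ℕ) (t : ℕ → ℕ) (K₀ : ℕ)
    (ht : ∀ k, K₀ ≤ k → k ≤ t k ∧ t k ≤ t (k + 1) ∧ ∀ n ∈ C k, t k < n ∧ n ≤ t (k + 1)) (π : ℕ → ℝ) (hπ0 : ∀ k, K₀ ≤ k → 0 ≤ π k)
    (hπ : ∀ k, K₀ ≤ k → π k ≤ ∏ n ∈ C k, (if n ∈ O k then l n else 1 - u n)) (hdiv : ¬ Summable π) :
    ∀ᵐ ω ∂μ, ∃ᶠ k in atTop, ω ∈ CylE A (O k) (C k) := by
  set V := VB μ ℱ A l u with hVdef
  have hVm : ∀ n, MeasurableSet[ℱ n] (V n) := fun n => VB_meas l u n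
  set D : ℕ → Set Ω := fun k => CylE A (O k) (C k) ∪ VC V (C k) with hD
  have hDm : ∀ k, K₀ ≤ k → MeasurableSet[ℱ (t (k + 1))] (D k) := fun k hk =>
    (CylE_meas hA _ _ fun n hn => ((ht k hk).2.2 n hn).2).union (VC_meas hVm _ fun n hn => ((ht k hk).2.2 n hn).2)
  have key : ∀ N, K₀ ≤ N → ∀ m, MeasurableSet[ℱ (t (N + m))] {ω | ∀ k, N ≤ k → k < N + m → ω ∉ D k} ∧
      μ.real {ω | ∀ k, N ≤ k → k < N + m → ω ∉ D k} ≤ Real.exp (-∑ k ∈ Finset.range m, π (N + k)) := by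
    intro N hN m
    induction m with
    | zero =>
      have : {ω : Ω | ∀ k, N ≤ k → k < N + 0 → ω ∉ D k} = univ := by
        ext ω
        simp only [add_zero, mem_ofPred_eq, mem_univ, iff_true]
        intro k h1 h2
        omega
      rw [this]
      refine ⟨@MeasurableSet.univ _ (ℱ _), ?_⟩
      simp
    | succ m ih =>
      obtain ⟨ih1, ih2⟩ := ih
      set R : Set Ω := {ω | ∀ k, N ≤ k → k < N + m → ω ∉ D k} with hR
      have hk := ht (N + m) (by omega)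
      have e1 : {ω : Ω | ∀ k, N ≤ k → k < N + (m + 1) → ω ∉ D k} = R \ D (N + m) := by
        ext ω
        constructor
        · intro h
          exact ⟨fun k h1 h2 => h k h1 (by omega), h (N + m) (by omega) (by omega)⟩
        · rintro ⟨h1, h2⟩ k h3 h4
          rcases Nat.lt_or_ge k (N + m) with h5 | h5
          · exact h1 k h3 h5
          · rwa [show k = N + m by omega]
      rw [e1]
      have h2 := cyl_ge (μ := μ) (ℱ := ℱ) hA hl0 hl1 hu0 hu1 (O (N + m)) (C (N + m)) (t (N + m)) (fun n hn => (hk.2.2 n hn).1) R ih1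
      have h3 : π (N + m) * μ.real R ≤ μ.real (R ∩ D (N + m)) :=
        le_trans (mul_le_mul_of_nonneg_right (hπ _ (by omega)) measureReal_nonneg) h2
      refine ⟨(ℱ.mono hk.2.1 _ ih1).diff (hDm _ (by omega)), ?_⟩
      have hD0 : MeasurableSet (D (N + m)) := ℱ.le _ _ (hDm _ (by omega))
      have h5 := measureReal_inter_add_sdiff (μ := μ) (s := R) hD0
      rw [Finset.sum_range_succ, neg_add, Real.exp_add]
      have h7 : 1 - π (N + m) ≤ Real.exp (-π (N + m)) := by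
        have := Real.add_one_le_exp (-π (N + m))
        linarith
      have h8 : (0 : ℝ) ≤ μ.real R := measureReal_nonneg
      calc μ.real (R \ D (N + m)) ≤ (1 - π (N + m)) * μ.real R := by linarith
        _ ≤ Real.exp (-π (N + m)) * μ.real R := mul_le_mul_of_nonneg_right h7 h8
        _ ≤ Real.exp (-π (N + m)) * Real.exp (-∑ k ∈ Finset.range m, π (N + k)) := mul_le_mul_of_nonneg_left ih2 (Real.exp_pos _).le
        _ = _ := mul_comm _ _
  have hnull : ∀ N, K₀ ≤ N → ∀ᵐ ω ∂μ, ∃ k, N ≤ k ∧ ω ∈ D k := by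
    intro N hN
    have h1 : ¬ Summable (fun k => π (N + k)) := by
      intro h
      apply hdiv
      rw [← summable_nat_add_iff N]
      refine h.congr fun k => ?_
      rw [add_comm]
    have h2 : Tendsto (fun m => ∑ k ∈ Finset.range m, π (N + k)) atTop atTop :=
      (not_summable_iff_tendsto_nat_atTop_of_nonneg fun k => hπ0 _ (by omega)).1 h1
    have h3 : Tendsto (fun m => Real.exp (-∑ k ∈ Finset.range m, π (N + k))) atTop (𝓝 0) :=
      Real.tendsto_exp_neg_atTop_nhds_zero.comp h2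
    set Z : Set Ω := {ω | ∀ k, N ≤ k → ω ∉ D k} with hZ
    have h4 : μ.real Z ≤ 0 := by
      refine ge_of_tendsto' h3 fun m => ?_
      refine (measureReal_mono ?_ (measure_ne_top _ _)).trans (key N hN m).2
      intro ω hω k h5 _
      exact hω k h5
    have h5 : μ Z = 0 := by
      have h6 : μ.real Z = 0 := le_antisymm h4 measureReal_nonneg
      rwa [measureReal_eq_zero_iff] at h6
    have h7 : ∀ᵐ ω ∂μ, ω ∉ Z := measure_eq_zero_iff_ae_notMem.1 h5
    filter_upwards [h7] with ω hω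
    by_contra hcon
    push Not at hcon
    exact hω hcon
  have hall : ∀ᵐ ω ∂μ, ∀ N, K₀ ≤ N → ∃ k, N ≤ k ∧ ω ∈ D k := by
    rw [ae_all_iff]
    intro N
    by_cases h : K₀ ≤ N
    · filter_upwards [hnull N h] with ω hω _
      exact hω
    · exact Eventually.of_forall fun ω h' => absurd h' h
  filter_upwards [hall, hV] with ω h1 h2
  obtain ⟨n₀, hn₀⟩ := eventually_atTop.1 h2
  rw [frequently_atTop]
  intro N
  obtain ⟨k, hk1, hk2⟩ := h1 (N + K₀ + n₀) (by omega)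
  refine ⟨k, by omega, ?_⟩
  rcases hk2 with h3 | ⟨n, h3, h4⟩
  · exact h3
  · have h5 := ht k (by omega)
    have h6 := (h5.2.2 n h3).1
    exact absurd h4 (hn₀ (n - 1) (by omega))

/-- sets with at most `r` chosen elements, when improbable, do not recur -/
theorem few_ev (hA : ∀ n, MeasurableSet[ℱ n] (A n)) (l : ℕ → ℝ) (hl1 : ∀ n, l n ≤ 1)
    (hlow : ∀ᵐ ω ∂μ, ∃ N, ∀ n, N ≤ n → l (n + 1) ≤ dens μ ℱ A n ω) (C : ℕ → Finset ℕ) (r : ℕ) (b : ℕ → ℝ)
    (hsum : Summable b) (K₀ : ℕ) (hC : ∀ k, K₀ ≤ k → r ≤ (C k).card ∧ (∀ n ∈ C k, k < n) ∧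
      ((C k).card : ℝ) ^ r * Real.exp (-(∑ n ∈ C k, l n - r)) ≤ b k) :
    ∀ᵐ ω ∂μ, ∀ᶠ k in atTop, ∀ R : Finset ℕ, R ⊆ C k → R.card ≤ r → ∃ n ∈ C k, n ∉ R ∧ ω ∈ A n := by
  classical
  set m : ℕ → ℕ := fun k => (C k).sup id with hm
  have hCm : ∀ k, ∀ n ∈ C k, n ≤ m k := fun k n hn => Finset.le_sup (f := id) hn
  have main : ∀ N : ℕ, ∀ᵐ ω ∂μ, ∀ᶠ k in atTop, ω ∉ {ω | (∃ R : Finset ℕ, R ⊆ C k ∧ R.card ≤ r ∧ ∀ n ∈ C k, n ∉ R → ω ∉ A n)} ∩
      LBs μ ℱ A l N (m k) := by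
    intro N
    refine bc_real hsum ?_
    filter_upwards [eventually_ge_atTop K₀, eventually_ge_atTop N] with k hk hkN
    obtain ⟨h1, h2, h3⟩ := hC k hk
    refine le_trans ?_ h3
    have hsub : {ω | (∃ R : Finset ℕ, R ⊆ C k ∧ R.card ≤ r ∧ ∀ n ∈ C k, n ∉ R → ω ∉ A n)} ∩ LBs μ ℱ A l N (m k) ⊆
        ⋃ R ∈ (C k).powersetCard r, ({ω | ∀ n ∈ C k \ R, ω ∉ A n} ∩ LBs μ ℱ A l N (m k)) := by
      rintro ω ⟨⟨R, g1, g2, g3⟩, g4⟩
      obtain ⟨R', g5, g6, g7⟩ := Finset.exists_subsuperset_card_eq g1 g2 h1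
      rw [mem_iUnion₂]
      refine ⟨R', Finset.mem_powersetCard.2 ⟨g6, g7⟩, ⟨?_, g4⟩⟩
      intro n hn
      rw [Finset.mem_sdiff] at hn
      exact g3 n hn.1 fun h => hn.2 (g5 h)
    refine (measureReal_mono hsub (measure_ne_top _ _)).trans ?_
    refine (measureReal_biUnion_finset_le _ _).trans ?_
    have h4 : ∀ R ∈ (C k).powersetCard r, μ.real ({ω | ∀ n ∈ C k \ R, ω ∉ A n} ∩ LBs μ ℱ A l N (m k)) ≤
        Real.exp (-(∑ n ∈ C k, l n - r)) := by
      intro R hR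
      obtain ⟨g1, g2⟩ := Finset.mem_powersetCard.1 hR
      refine absent_exp hA l hl1 N (m k) (C k \ R) (fun n hn => ?_) ?_
      · have := h2 n (Finset.mem_sdiff.1 hn).1
        exact ⟨by omega, hCm k n (Finset.mem_sdiff.1 hn).1⟩
      · have h5 := Finset.sum_sdiff (f := l) g1
        have h6 : ∑ n ∈ R, l n ≤ r := by
          calc ∑ n ∈ R, l n ≤ ∑ n ∈ R, (1 : ℝ) := Finset.sum_le_sum fun n _ => hl1 n
            _ = r := by rw [Finset.sum_const, nsmul_eq_mul, mul_one, g2]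
        linarith
    refine (Finset.sum_le_sum h4).trans ?_
    rw [Finset.sum_const, nsmul_eq_mul, Finset.card_powersetCard]
    apply mul_le_mul_of_nonneg_right _ (Real.exp_pos _).le
    exact_mod_cast Nat.choose_le_pow _ _
  have hall : ∀ᵐ ω ∂μ, ∀ N : ℕ, ∀ᶠ k in atTop, ω ∉ {ω | (∃ R : Finset ℕ, R ⊆ C k ∧ R.card ≤ r ∧ ∀ n ∈ C k, n ∉ R → ω ∉ A n)} ∩
      LBs μ ℱ A l N (m k) := ae_all_iff.2 main
  filter_upwards [hall, hlow] with ω h1 h2
  obtain ⟨N, hN⟩ := h2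
  filter_upwards [h1 N] with k hk R hR hr
  by_contra hcon
  push Not at hcon
  exact hk ⟨⟨R, hR, hr, hcon⟩, fun n hn _ => hN n hn⟩

end Pool.Agent.R481.RM
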