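import Mathlib
import Pool.Agent.R481.RM.Cyl

set_option autoImplicit false
set_option linter.unusedSectionVars false
set_option linter.unusedVariables false

/-! # Windows at the ends of the intervals between odd squares -/

open MeasureTheory Filter Set
open scoped ENNReal Topology

namespace Pool.Agent.R481.RM

open Pool.Agent.R528.RM

variable {Ω : Type} {m0 : MeasurableSpace Ω} {μ : Measure Ω} [IsProbabilityMeasure μ]
  {ℱ : Filtration ℕ m0} {A : ℕ → Set Ω}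

/-- left end -/
def Tq (k : ℕ) : ℕ := (2 * k - 1) ^ 2

/-- right end -/
def Uq (k : ℕ) : ℕ := (2 * k + 1) ^ 2

/-- a window of length `p` at the left end and one of length `q` at the right end -/
def W2 (p q k : ℕ) : Finset ℕ := Finset.Ioc (Tq k) (Tq k + p) ∪ Finset.Ico (Uq k - q) (Uq k)

/-- `⌊u (log k)²⌋` -/
noncomputable def g2 (u : ℝ) (k : ℕ) : ℕ := ⌊u * Real.log k ^ 2⌋₊

lemma sum_Ioc_rho {W s t : ℕ} : ∑ n ∈ Finset.Ioc s t, rhoW W n = ∑ n ∈ cls W 1 0 s t, rhoW W n := by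
  unfold cls
  rw [Finset.sum_filter]
  refine Finset.sum_congr rfl fun n _ => ?_
  split_ifs with h
  · rfl
  · unfold rhoW
    rw [if_neg]
    intro h2
    exact h ⟨Nat.mod_one n, h2⟩

lemma win_bounds {W : ℕ} (hW : 0 < W) : ∀ᶠ s : ℕ in atTop, ∀ t, s ≤ t →
    (((t : ℝ) - s) - 2 * W) / Real.log t ≤ ∑ n ∈ Finset.Ioc s t, rhoW W n ∧
    ∑ n ∈ Finset.Ioc s t, rhoW W n ≤ (((t : ℝ) - s) + 2 * W) / Real.log s := by
  filter_upwards [ev_log ((W : ℝ) / Nat.totient W), eventually_ge_atTop 1] with s h1 h2 t ht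
  have h3 := rho_cls1 (W := W) (q := 1) (a := 0) (s := s) (t := t) hW one_pos (zero_mem_admW W) ht h1 h2
  rw [adm_oneW] at h3
  rw [sum_Ioc_rho]
  push_cast at h3
  simp only [one_mul] at h3
  exact h3

/-- room between the two windows -/
lemma ev_room2 (K : ℝ) : ∀ᶠ k : ℕ in atTop, K * Real.log k ^ 2 + K ≤ k := by
  have h1 := (isLittleO_log_rpow_rpow_atTop (2 : ℝ) (show (0 : ℝ) < 1 by norm_num)).comp_tendsto
    (tendsto_natCast_atTop_atTop (R := ℝ))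
  have hc : (0 : ℝ) < 1 / (2 * (|K| + 1)) := by positivity
  filter_upwards [h1.bound hc, eventually_ge_atTop 1, eventually_ge_atTop ⌈2 * |K|⌉₊] with k h2 h3 h4
  have hk : (1 : ℝ) ≤ k := by exact_mod_cast h3
  have hl : 0 ≤ Real.log (k : ℝ) := Real.log_nonneg hk
  simp only [Function.comp_apply, Real.rpow_one, Real.rpow_two] at h2
  rw [Real.norm_of_nonneg (by positivity), Real.norm_of_nonneg (by linarith)] at h2
  have h5 : 2 * |K| ≤ k := Nat.ceil_le.1 h4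
  have h6 : K * Real.log k ^ 2 ≤ |K| * Real.log k ^ 2 := mul_le_mul_of_nonneg_right (le_abs_self K) (by positivity)
  have h7 : |K| * Real.log k ^ 2 ≤ k / 2 := by
    have e1 : |K| * Real.log k ^ 2 ≤ |K| * (1 / (2 * (|K| + 1)) * k) := mul_le_mul_of_nonneg_left h2 (abs_nonneg K)
    have e2 : |K| * (1 / (2 * (|K| + 1)) * (k : ℝ)) ≤ k / 2 := by
      rw [show |K| * (1 / (2 * (|K| + 1)) * (k : ℝ)) = (|K| / (|K| + 1)) * (k / 2) by field_simp]
      have : |K| / (|K| + 1) ≤ 1 := by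
        rw [div_le_one (by positivity)]
        linarith [abs_nonneg K]
      nlinarith
    linarith
  have h8 := le_abs_self K
  linarith

lemma TU {k : ℕ} (hk : 1 ≤ k) : Tq k + 8 * k = Uq k ∧ k ^ 2 ≤ Tq k ∧ k ≤ Tq k := by
  obtain ⟨j, rfl⟩ : ∃ j, k = j + 1 := ⟨k - 1, by omega⟩
  unfold Tq Uq
  rw [show 2 * (j + 1) - 1 = 2 * j + 1 by omega]
  refine ⟨by ring, by nlinarith, by nlinarith⟩

lemma TU_next {k k' : ℕ} (h : k < k') : Uq k ≤ Tq k' := by
  unfold Tq Uq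
  exact Nat.pow_le_pow_left (by omega) 2

/-- the sum of the densities over the two windows -/
lemma two_win {W : ℕ} (hW : 0 < W) {δ : ℝ} (hδ : 0 < δ) (K : ℝ) : ∀ᶠ k : ℕ in atTop, ∀ p q : ℕ,
    (p : ℝ) ≤ K * Real.log k ^ 2 → (q : ℝ) ≤ K * Real.log k ^ 2 →
      (Tq k + p < Uq k - q ∧ k ^ 2 ≤ Uq k - q - 1 ∧ q < Uq k) ∧
      ((p : ℝ) + q) / (2 * (1 + δ) * Real.log k) - 4 * W ≤ ∑ n ∈ W2 p q k, rhoW W n ∧
      ∑ n ∈ W2 p q k, rhoW W n ≤ ((p : ℝ) + q) / (2 * Real.log k) + 4 * W := by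
  have hsq : Tendsto (fun k : ℕ => k ^ 2) atTop atTop := tendsto_pow_atTop (by norm_num)
  obtain ⟨s₀, hs₀⟩ := eventually_atTop.1 (win_bounds hW)
  filter_upwards [hsq.eventually_ge_atTop s₀, ev_room2 (2 * K), ev_room2 2, ev_log (Real.log 3 / δ + 1), eventually_ge_atTop 3] with k h1 h2 h2' h3 h4 p q hp hq
  obtain ⟨e1, e2, e3⟩ := TU (k := k) (by omega)
  have hk3 : (3 : ℝ) ≤ k := by exact_mod_cast h4
  have hpq : p + q + 2 ≤ 2 * k := by
    have : (p : ℝ) + q + 2 ≤ 2 * k := by nlinarith [sq_nonneg (Real.log (k : ℝ))]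
    exact_mod_cast this
  have hlk : 1 ≤ Real.log (k : ℝ) := by
    have : 0 ≤ Real.log 3 / δ := div_nonneg (Real.log_nonneg (by norm_num)) hδ.le
    linarith
  have hl3 : Real.log 3 ≤ δ * Real.log k := by
    have : Real.log 3 / δ ≤ Real.log k := by linarith
    rw [div_le_iff₀ hδ] at this
    linarith
  have hroom : Tq k + p < Uq k - q := by omega
  have hroom2 : k ^ 2 ≤ Uq k - q - 1 := by omega
  refine ⟨⟨hroom, hroom2, by omega⟩, ?_⟩
  have hdisj : Disjoint (Finset.Ioc (Tq k) (Tq k + p)) (Finset.Ico (Uq k - q) (Uq k)) := by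
    rw [Finset.disjoint_left]
    intro n hn hn'
    have := (Finset.mem_Ioc.1 hn).2
    have := (Finset.mem_Ico.1 hn').1
    omega
  have hIco : Finset.Ico (Uq k - q) (Uq k) = Finset.Ioc (Uq k - q - 1) (Uq k - 1) := by
    ext n
    rw [Finset.mem_Ico, Finset.mem_Ioc]
    omega
  have hsum : ∑ n ∈ W2 p q k, rhoW W n = ∑ n ∈ Finset.Ioc (Tq k) (Tq k + p), rhoW W n + ∑ n ∈ Finset.Ioc (Uq k - q - 1) (Uq k - 1), rhoW W n := by
    unfold W2
    rw [Finset.sum_union hdisj, hIco]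
  have f1 := hs₀ (Tq k) (by omega) (Tq k + p) (by omega)
  have f2 := hs₀ (Uq k - q - 1) (by omega) (Uq k - 1) (by omega)
  have hlogk2 : Real.log ((k : ℝ) ^ 2) = 2 * Real.log k := by rw [Real.log_pow]; norm_num
  have hUup : ∀ n : ℕ, k ^ 2 ≤ n → n ≤ Uq k → 2 * Real.log k ≤ Real.log n ∧ Real.log n ≤ 2 * (1 + δ) * Real.log k := by
    intro n hn1 hn2
    have a1 : ((k : ℝ)) ^ 2 ≤ n := by exact_mod_cast hn1
    have a2 : (n : ℝ) ≤ (3 * k) ^ 2 := by
      have b1 : Uq k ≤ (3 * k) ^ 2 := Nat.pow_le_pow_left (by omega) 2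
      have : n ≤ (3 * k) ^ 2 := hn2.trans b1
      exact_mod_cast this
    have a0 : (0 : ℝ) < (k : ℝ) ^ 2 := by positivity
    constructor
    · rw [← hlogk2]
      exact Real.log_le_log a0 a1
    · have a3 := Real.log_le_log (lt_of_lt_of_le a0 a1) a2
      rw [Real.log_pow, Real.log_mul (by norm_num) (by positivity)] at a3
      push_cast at a3
      nlinarith
  have g1 := hUup (Tq k) e2 (by omega)
  have g2' := hUup (Tq k + p) (by omega) (by omega)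
  have g3 := hUup (Uq k - q - 1) hroom2 (by omega)
  have g4 := hUup (Uq k - 1) (by omega) (by omega)
  have c1 : ((Tq k + p : ℕ) : ℝ) - (Tq k : ℕ) = p := by push_cast; ring
  have c2 : ((Uq k - 1 : ℕ) : ℝ) - ((Uq k - q - 1 : ℕ) : ℝ) = q := by
    have : Uq k - 1 = (Uq k - q - 1) + q := by omega
    rw [this]
    push_cast
    ring
  rw [c1] at f1
  rw [c2] at f2
  have hp0 : (0 : ℝ) ≤ p := Nat.cast_nonneg p
  have hq0 : (0 : ℝ) ≤ q := Nat.cast_nonneg q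
  have hW0 : (0 : ℝ) ≤ 2 * (W : ℝ) := by positivity
  -- lower bound of one window
  have low : ∀ (x lg : ℝ), 0 ≤ x → 2 * Real.log k ≤ lg → lg ≤ 2 * (1 + δ) * Real.log k →
      x / (2 * (1 + δ) * Real.log k) - 2 * W ≤ (x - 2 * W) / lg := by
    intro x lg hx a1 a2
    have a3 : 0 < lg := by linarith
    rw [sub_div]
    have a4 : x / (2 * (1 + δ) * Real.log k) ≤ x / lg := div_le_div_of_nonneg_left hx a3 a2
    have a5 : 2 * (W : ℝ) / lg ≤ 2 * W := div_le_self hW0 (by linarith)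
    linarith
  have upp : ∀ (x lg : ℝ), 0 ≤ x → 2 * Real.log k ≤ lg → (x + 2 * W) / lg ≤ x / (2 * Real.log k) + 2 * W := by
    intro x lg hx a1
    have a3 : 0 < lg := by linarith
    rw [add_div]
    have a4 : x / lg ≤ x / (2 * Real.log k) := div_le_div_of_nonneg_left hx (by linarith) a1
    have a5 : 2 * (W : ℝ) / lg ≤ 2 * W := div_le_self hW0 (by linarith)
    linarith
  have l1 := low p _ hp0 g2'.1 g2'.2
  have l2 := low q _ hq0 g4.1 g4.2
  have u1 := upp p _ hp0 g1.1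
  have u2 := upp q _ hq0 g3.1
  rw [hsum]
  constructor
  · rw [add_div]
    linarith [f1.1, f2.1]
  · rw [add_div]
    linarith [f1.2, f2.2]

lemma ev_small (K : ℝ) (r : ℕ) {η : ℝ} (hη : 0 < η) : ∀ᶠ k : ℕ in atTop, (K * Real.log k ^ 2) ^ r * K ≤ (k : ℝ) ^ η := by
  have h1 := (isLittleO_log_rpow_rpow_atTop ((2 * r : ℕ) : ℝ) hη).comp_tendsto (tendsto_natCast_atTop_atTop (R := ℝ))
  have hc : (0 : ℝ) < 1 / (|K| ^ (r + 1) + 1) := by positivity
  filter_upwards [h1.bound hc, eventually_ge_atTop 1] with k h2 h3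
  have hk : (1 : ℝ) ≤ k := by exact_mod_cast h3
  have hl : 0 ≤ Real.log (k : ℝ) := Real.log_nonneg hk
  simp only [Function.comp_apply, Real.rpow_natCast] at h2
  rw [Real.norm_of_nonneg (pow_nonneg hl _), Real.norm_of_nonneg (Real.rpow_nonneg (by linarith) _)] at h2
  have hk0 : 0 ≤ (k : ℝ) ^ η := Real.rpow_nonneg (by linarith) _
  have h4 : (K * Real.log k ^ 2) ^ r * K ≤ |K| ^ (r + 1) * Real.log k ^ (2 * r) := by
    have e1 : (K * Real.log k ^ 2) ^ r * K ≤ |(K * Real.log k ^ 2) ^ r * K| := le_abs_self _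
    rw [abs_mul, abs_pow, abs_mul, abs_of_nonneg (show 0 ≤ Real.log (k : ℝ) ^ 2 by positivity)] at e1
    have e2 : (|K| * Real.log (k : ℝ) ^ 2) ^ r * |K| = |K| ^ (r + 1) * Real.log k ^ (2 * r) := by
      rw [mul_pow, ← pow_mul]
      ring
    rw [← e2]
    exact e1
  have h5 : |K| ^ (r + 1) * Real.log (k : ℝ) ^ (2 * r) ≤ |K| ^ (r + 1) * (1 / (|K| ^ (r + 1) + 1) * (k : ℝ) ^ η) :=
    mul_le_mul_of_nonneg_left h2 (by positivity)
  have h6 : |K| ^ (r + 1) * (1 / (|K| ^ (r + 1) + 1) * (k : ℝ) ^ η) ≤ (k : ℝ) ^ η := by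
    rw [show |K| ^ (r + 1) * (1 / (|K| ^ (r + 1) + 1) * (k : ℝ) ^ η) = (|K| ^ (r + 1) / (|K| ^ (r + 1) + 1)) * (k : ℝ) ^ η by ring]
    have : |K| ^ (r + 1) / (|K| ^ (r + 1) + 1) ≤ 1 := by
      rw [div_le_one (by positivity)]
      linarith
    nlinarith
  linarith

/-- at most `r` chosen integers in long windows: only finitely often -/
theorem upper_law (hA : ∀ n, MeasurableSet[ℱ n] (A n)) {W : ℕ} (hW : 0 < W)
    (hd : ∀ᵐ ω ∂μ, ∀ ε : ℝ, 0 < ε → ∀ᶠ n : ℕ in atTop, |dens μ ℱ A n ω - rhoW W (n + 1)| ≤ ε * rhoW W (n + 1))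
    {a b : ℝ} (ha : 0 ≤ a) (hb : 0 ≤ b) (hab : 2 < a + b) (r : ℕ) :
    ∀ᵐ ω ∂μ, ∀ᶠ k in atTop, ∀ R : Finset ℕ, R ⊆ W2 (g2 a k) (g2 b k) k → R.card ≤ r →
      ∃ n ∈ W2 (g2 a k) (g2 b k) k, n ∉ R ∧ ω ∈ A n := by
  set c₀ : ℝ := (a + b) / 2 with hc₀
  have hc1 : 1 < c₀ := by rw [hc₀]; linarith
  set δ : ℝ := (c₀ - 1) / (8 * c₀) with hδ
  have hδ0 : 0 < δ := div_pos (by linarith) (by linarith)
  have hδ1 : δ ≤ 1 / 8 := by
    rw [hδ, div_le_div_iff₀ (by linarith) (by norm_num)]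
    linarith
  have hδc : δ * c₀ = (c₀ - 1) / 8 := by
    rw [hδ]
    field_simp
  set c₁ : ℝ := (3 * c₀ + 1) / 4 with hc₁
  set c₂ : ℝ := (c₁ + 1) / 2 with hc₂
  have hc2 : 1 < c₂ := by rw [hc₂, hc₁]; linarith
  have hc12 : 0 < c₁ - c₂ := by rw [hc₂, hc₁]; linarith
  have hl1 : ∀ n, Pool.Agent.R528.RM.lp W δ n ≤ 1 := by
    intro n
    have h1 := rhoW_le W n
    have h2 := rhoW_nonneg W n
    unfold Pool.Agent.R528.RM.lp
    nlinarith
  have hlow : ∀ᵐ ω ∂μ, ∃ N, ∀ n, N ≤ n → Pool.Agent.R528.RM.lp W δ (n + 1) ≤ dens μ ℱ A n ω := by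
    filter_upwards [hd] with ω hω
    obtain ⟨N, hN⟩ := eventually_atTop.1 (hω δ hδ0)
    refine ⟨N, fun n hn => ?_⟩
    have := (abs_le.1 (hN n hn)).1
    unfold Pool.Agent.R528.RM.lp
    linarith
  set K : ℝ := (a + b) + Real.exp (4 * W + 2 + r) with hK
  have hexp : 0 < Real.exp (4 * (W : ℝ) + 2 + r) := Real.exp_pos _
  obtain ⟨K₀, hK₀⟩ := eventually_atTop.1 ((two_win hW hδ0 K).and ((ev_small K r hc12).and
    ((ev_log (4 * W + 2 + r + 1)).and (eventually_ge_atTop 2))))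
  refine few_ev hA (Pool.Agent.R528.RM.lp W δ) hl1 hlow (fun k => W2 (g2 a k) (g2 b k) k) r (fun k => (k : ℝ) ^ (-c₂))
    (Real.summable_nat_rpow.2 (by linarith)) K₀ ?_
  intro k hk
  obtain ⟨h1, h2, h3, h4⟩ := hK₀ k hk
  have hk2 : (2 : ℝ) ≤ k := by exact_mod_cast h4
  have hL0 : 0 ≤ Real.log (k : ℝ) ^ 2 := by positivity
  have hlk : 1 ≤ Real.log (k : ℝ) := by
    have : (0 : ℝ) ≤ W := Nat.cast_nonneg W
    have : (0 : ℝ) ≤ r := Nat.cast_nonneg r
    linarith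
  have ga : ((g2 a k : ℕ) : ℝ) ≤ a * Real.log k ^ 2 := Nat.floor_le (by positivity)
  have gb : ((g2 b k : ℕ) : ℝ) ≤ b * Real.log k ^ 2 := Nat.floor_le (by positivity)
  have ga' : a * Real.log k ^ 2 < (g2 a k : ℕ) + 1 := Nat.lt_floor_add_one _
  have gb' : b * Real.log k ^ 2 < (g2 b k : ℕ) + 1 := Nat.lt_floor_add_one _
  obtain ⟨⟨r1, r2, r3⟩, r4, _⟩ := h1 (g2 a k) (g2 b k) (ga.trans (mul_le_mul_of_nonneg_right (by rw [hK]; linarith) hL0))
    (gb.trans (mul_le_mul_of_nonneg_right (by rw [hK]; linarith) hL0))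
  have hsum : c₁ * Real.log k - (4 * W + 2) ≤ ∑ n ∈ W2 (g2 a k) (g2 b k) k, Pool.Agent.R528.RM.lp W δ n := by
    unfold Pool.Agent.R528.RM.lp
    rw [← Finset.mul_sum]
    have e1 : (1 - δ) * (((g2 a k : ℕ) : ℝ) + (g2 b k : ℕ)) / (2 * (1 + δ) * Real.log k) - 4 * W ≤ (1 - δ) * ∑ n ∈ W2 (g2 a k) (g2 b k) k, rhoW W n := by
      have := mul_le_mul_of_nonneg_left r4 (show 0 ≤ 1 - δ by linarith)
      have hW0 : (0 : ℝ) ≤ W := Nat.cast_nonneg W
      rw [mul_sub, ← mul_div_assoc] at this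
      nlinarith
    refine le_trans ?_ e1
    have e2 : (1 - δ) * (2 * c₀ * Real.log k ^ 2 - 2) / (2 * (1 + δ) * Real.log k) ≤ (1 - δ) * (((g2 a k : ℕ) : ℝ) + (g2 b k : ℕ)) / (2 * (1 + δ) * Real.log k) := by
      apply div_le_div_of_nonneg_right _ (by positivity)
      apply mul_le_mul_of_nonneg_left _ (by linarith)
      rw [hc₀]
      linarith
    have e3 : c₁ * Real.log k - 2 ≤ (1 - δ) * (2 * c₀ * Real.log k ^ 2 - 2) / (2 * (1 + δ) * Real.log k) := by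
      rw [le_div_iff₀ (by positivity)]
      have a1 : c₁ * (1 + δ) ≤ (1 - δ) * c₀ := by
        rw [hc₁]
        nlinarith [hδc, mul_pos hδ0 (show 0 < c₀ by linarith)]
      have a2 := mul_le_mul_of_nonneg_right a1 hL0
      have a3 : (c₁ * Real.log (k : ℝ) - 2) * (2 * (1 + δ) * Real.log k) = 2 * (c₁ * (1 + δ) * Real.log k ^ 2) - 4 * (Real.log k + δ * Real.log k) := by ring
      have a4 : (1 - δ) * (2 * c₀ * Real.log (k : ℝ) ^ 2 - 2) = 2 * ((1 - δ) * c₀ * Real.log k ^ 2) - 2 * (1 - δ) := by ring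
      have a5 : 0 ≤ δ * Real.log (k : ℝ) := mul_nonneg hδ0.le (by linarith only [hlk])
      rw [a3, a4]
      linarith only [a2, a5, hlk, hδ0]
    linarith
  have hcardsum : ∑ n ∈ W2 (g2 a k) (g2 b k) k, Pool.Agent.R528.RM.lp W δ n ≤ ((W2 (g2 a k) (g2 b k) k).card : ℝ) := by
    calc _ ≤ ∑ n ∈ W2 (g2 a k) (g2 b k) k, (1 : ℝ) := Finset.sum_le_sum fun n _ => hl1 n
      _ = _ := by rw [Finset.sum_const, nsmul_eq_mul, mul_one]
  have hc1' : 1 < c₁ := by rw [hc₁]; linarith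
  refine ⟨?_, ?_, ?_⟩
  · have : (r : ℝ) ≤ ((W2 (g2 a k) (g2 b k) k).card : ℝ) := by nlinarith
    exact_mod_cast this
  · intro n hn
    obtain ⟨e1, e2, e3⟩ := TU (k := k) (by omega)
    unfold W2 at hn
    rcases Finset.mem_union.1 hn with hn | hn
    · have := (Finset.mem_Ioc.1 hn).1
      omega
    · have := (Finset.mem_Ico.1 hn).1
      omega
  · have hcard : ((W2 (g2 a k) (g2 b k) k).card : ℝ) ≤ K * Real.log k ^ 2 := by
      have e1 : (W2 (g2 a k) (g2 b k) k).card ≤ g2 a k + g2 b k := by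
        unfold W2
        refine (Finset.card_union_le _ _).trans ?_
        rw [Nat.card_Ioc, Nat.card_Ico]
        omega
      have e2 : ((W2 (g2 a k) (g2 b k) k).card : ℝ) ≤ (g2 a k : ℕ) + (g2 b k : ℕ) := by exact_mod_cast e1
      have e3 : (a + b) * Real.log (k : ℝ) ^ 2 ≤ K * Real.log k ^ 2 := mul_le_mul_of_nonneg_right (by rw [hK]; linarith) hL0
      linarith
    have hkp : (0 : ℝ) < k := by linarith
    calc ((W2 (g2 a k) (g2 b k) k).card : ℝ) ^ r * Real.exp (-(∑ n ∈ W2 (g2 a k) (g2 b k) k, Pool.Agent.R528.RM.lp W δ n - r))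
        ≤ (K * Real.log k ^ 2) ^ r * (Real.exp (4 * W + 2 + r) * (k : ℝ) ^ (-c₁)) := by
          apply mul_le_mul (pow_le_pow_left₀ (Nat.cast_nonneg _) hcard r) _ (Real.exp_pos _).le (by positivity)
          rw [Real.rpow_def_of_pos hkp, ← Real.exp_add]
          apply Real.exp_le_exp.2
          linarith
      _ ≤ (K * Real.log k ^ 2) ^ r * (K * (k : ℝ) ^ (-c₁)) := by
          apply mul_le_mul_of_nonneg_left _ (by positivity)
          apply mul_le_mul_of_nonneg_right _ (Real.rpow_nonneg hkp.le _)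
          rw [hK]
          linarith
      _ = ((K * Real.log k ^ 2) ^ r * K) * (k : ℝ) ^ (-c₁) := by ring
      _ ≤ (k : ℝ) ^ (c₁ - c₂) * (k : ℝ) ^ (-c₁) := mul_le_mul_of_nonneg_right h2 (Real.rpow_nonneg hkp.le _)
      _ = (k : ℝ) ^ (-c₂) := by
          rw [← Real.rpow_add hkp]
          congr 1
          ring

end Pool.Agent.R481.RM
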