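import Mathlib
import Pool.Agent.R481.RM.Ends1

set_option autoImplicit false
set_option linter.unusedSectionVars false
set_option linter.unusedVariables false

/-! # Prescribed first and last elements of the intervals between odd squares -/

open MeasureTheory Filter Set
open scoped ENNReal Topology

namespace Pool.Agent.R481.RM

open Pool.Agent.R528.RM

variable {Ω : Type} {m0 : MeasurableSpace Ω} {μ : Measure Ω} [IsProbabilityMeasure μ]
  {ℱ : Filtration ℕ m0} {A : ℕ → Set Ω}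

/-- a multiple of `W` close to `u (log k)²` -/
noncomputable def pW (W : ℕ) (u : ℝ) (k : ℕ) : ℕ := W * ⌊u * Real.log k ^ 2 / W⌋₊

/-- the prescribed chosen integers -/
noncomputable def ones {r s : ℕ} (u : Fin (r + 1) → ℝ) (v : Fin (s + 1) → ℝ) (W k : ℕ) : Finset ℕ :=
  Finset.univ.image (fun i => Tq k + pW W (u i) k) ∪ Finset.univ.image (fun i => Uq k - pW W (v i) k)

lemma prod_geF {c : ℕ → Prop} [DecidablePred c] {l u : ℕ → ℝ} {lm κ : ℝ} {C : Finset ℕ} {k : ℕ} (hlm0 : 0 ≤ lm) (hlm1 : lm ≤ 1)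
    (hl : ∀ i ∈ C, c i → lm ≤ l i) (hκ1 : κ ≤ 1) (hu0 : ∀ i ∈ C, 0 ≤ u i) (hu : ∀ i ∈ C, 2 * u i ≤ κ)
    (hk : (C.filter c).card ≤ k) :
    lm ^ k * Real.exp (-((1 + κ) * ∑ i ∈ C, u i)) ≤ ∏ i ∈ C, (if c i then l i else 1 - u i) := by
  have h1 : ∏ i ∈ C, ((if c i then lm else 1) * Real.exp (-((1 + κ) * u i))) ≤ ∏ i ∈ C, (if c i then l i else 1 - u i) := by
    apply Finset.prod_le_prod
    · intro i _
      have := (Real.exp_pos (-((1 + κ) * u i))).le
      split_ifs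
      · positivity
      · rw [one_mul]; exact this
    · intro i hi
      have hκ0 : 0 ≤ κ := by linarith [hu0 i hi, hu i hi]
      split_ifs with h
      · have h2 : Real.exp (-((1 + κ) * u i)) ≤ 1 := by
          rw [Real.exp_le_one_iff]
          have := mul_nonneg (show 0 ≤ 1 + κ by linarith) (hu0 i hi)
          linarith
        calc lm * Real.exp (-((1 + κ) * u i)) ≤ lm * 1 := mul_le_mul_of_nonneg_left h2 hlm0
          _ ≤ l i := by rw [mul_one]; exact hl i hi h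
      · rw [one_mul]
        exact one_sub_ge (hu0 i hi) hκ1 (hu i hi)
  refine le_trans ?_ h1
  rw [Finset.prod_mul_distrib, ← Real.exp_sum, Finset.prod_ite, Finset.prod_const, Finset.prod_const_one, mul_one, Finset.sum_neg_distrib,
    ← Finset.mul_sum]
  apply mul_le_mul_of_nonneg_right _ (Real.exp_pos _).le
  exact pow_le_pow_of_le_one hlm0 hlm1 hk

lemma cop_ends {W j : ℕ} (hW : 0 < W) (hj : 0 < j) : Nat.Coprime (Tq (W * j)) W ∧ Nat.Coprime (Uq (W * j)) W := by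
  have hWj : 0 < W * j := Nat.mul_pos hW hj
  constructor
  · unfold Tq
    apply Nat.Coprime.pow_left
    have h1 : Nat.gcd (2 * (W * j) - 1) W ∣ 2 * (W * j) - 1 := Nat.gcd_dvd_left _ _
    have h2 : Nat.gcd (2 * (W * j) - 1) W ∣ 2 * (W * j) :=
      (Nat.gcd_dvd_right _ _).trans ⟨2 * j, by ring⟩
    have h3 := Nat.dvd_sub h2 h1
    rw [show 2 * (W * j) - (2 * (W * j) - 1) = 1 by omega] at h3
    exact Nat.dvd_one.1 h3
  · unfold Uq
    apply Nat.Coprime.pow_left
    rw [show 2 * (W * j) + 1 = 1 + W * (2 * j) by ring, Nat.coprime_add_mul_left_left]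
    exact Nat.coprime_one_left W

lemma pW_le {W : ℕ} (hW : 0 < W) {u : ℝ} (hu : 0 ≤ u) (k : ℕ) : ((pW W u k : ℕ) : ℝ) ≤ u * Real.log k ^ 2 := by
  have hW' : (0 : ℝ) < W := by exact_mod_cast hW
  unfold pW
  push_cast
  have h1 : ((⌊u * Real.log k ^ 2 / W⌋₊ : ℕ) : ℝ) ≤ u * Real.log k ^ 2 / W := Nat.floor_le (by positivity)
  calc (W : ℝ) * (⌊u * Real.log k ^ 2 / W⌋₊ : ℕ) ≤ W * (u * Real.log k ^ 2 / W) := mul_le_mul_of_nonneg_left h1 hW'.le
    _ = _ := by field_simp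

lemma lt_pW {W : ℕ} (hW : 0 < W) (u : ℝ) (k : ℕ) : u * Real.log k ^ 2 < (pW W u k : ℕ) + W := by
  have hW' : (0 : ℝ) < W := by exact_mod_cast hW
  unfold pW
  push_cast
  have h1 : u * Real.log k ^ 2 / W < (⌊u * Real.log k ^ 2 / W⌋₊ : ℕ) + 1 := Nat.lt_floor_add_one _
  rw [div_lt_iff₀ hW'] at h1
  linarith

end Pool.Agent.R481.RM
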