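import Mathlib
import Pool.Agent.R481.RM.EndsD

set_option autoImplicit false
set_option linter.unusedSectionVars false
set_option linter.unusedVariables false

/-! # Prescribed first and last elements of the intervals between odd squares -/

open MeasureTheory Filter Set
open scoped ENNReal Topology

namespace Pool.Agent.R481.RM

open Pool.Agent.R528.RM

variable {Ω : Type} {m0 : MeasurableSpace Ω} {μ : Measure Ω} [IsProbabilityMeasure μ]
  {ℱ : Filtration ℕ m0} {A : ℕ → Set Ω}

/-- prescribed patterns at both ends recur -/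
theorem lower_law (hA : ∀ n, MeasurableSet[ℱ n] (A n)) {W : ℕ} (hW : 0 < W)
    (hd : ∀ᵐ ω ∂μ, ∀ ε : ℝ, 0 < ε → ∀ᶠ n : ℕ in atTop, |dens μ ℱ A n ω - rhoW W (n + 1)| ≤ ε * rhoW W (n + 1))
    {r s : ℕ} {u : Fin (r + 1) → ℝ} {v : Fin (s + 1) → ℝ} (hu : ∀ i, 0 < u i) (hv : ∀ i, 0 < v i)
    (hsum : u (Fin.last r) + v (Fin.last s) < 2) :
    ∀ᵐ ω ∂μ, ∃ᶠ k in atTop, ω ∈ CylE A (ones u v W k) (W2 (pW W (u (Fin.last r)) k) (pW W (v (Fin.last s)) k) k) := by
  classical
  set a : ℝ := u (Fin.last r) with ha
  set b : ℝ := v (Fin.last s) with hb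
  have ha0 : 0 < a := hu _
  have hb0 : 0 < b := hv _
  set c : ℝ := (a + b) / 2 with hc
  have hc0 : 0 < c := by rw [hc]; linarith
  have hc1 : c < 1 := by rw [hc]; linarith
  set δ : ℝ := (1 - c) / 4 with hδ
  have hδ0 : 0 < δ := by rw [hδ]; linarith
  have hδ1 : δ ≤ 1 / 4 := by rw [hδ]; linarith
  set c' : ℝ := (3 + c) / 4 with hc'
  have hc'1 : 0 < 1 - c' := by rw [hc']; linarith
  have hφ : (1 : ℝ) ≤ Nat.totient W := by exact_mod_cast Nat.totient_pos.2 hW
  have hW' : (1 : ℝ) ≤ W := by exact_mod_cast hW
  have hWφ1 : 1 ≤ (W : ℝ) / Nat.totient W := by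
    rw [le_div_iff₀ (by linarith)]
    have : (Nat.totient W : ℝ) ≤ W := by exact_mod_cast Nat.totient_le W
    linarith
  have hWφ2 : (W : ℝ) / Nat.totient W ≤ W := div_le_self (by linarith) hφ
  have hl0 : ∀ n, 0 ≤ Pool.Agent.R528.RM.lp W δ n := fun n => mul_nonneg (by linarith) (rhoW_nonneg W n)
  have hl1 : ∀ n, Pool.Agent.R528.RM.lp W δ n ≤ 1 := by
    intro n
    have h1 := rhoW_le W n
    have h2 := rhoW_nonneg W n
    unfold Pool.Agent.R528.RM.lp
    nlinarith only [h1, h2, hδ0, hδ1]
  have hu0 : ∀ n, 0 ≤ up W δ n := fun n => le_min zero_le_one (mul_nonneg (by linarith) (rhoW_nonneg W n))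
  have hu1 : ∀ n, up W δ n ≤ 1 := fun n => min_le_left _ _
  have h01 : ∀ᵐ ω ∂μ, ∀ n, 0 ≤ dens μ ℱ A n ω ∧ dens μ ℱ A n ω ≤ 1 := ae_all_iff.2 fun n => dens01 hA n
  have hV : ∀ᵐ ω ∂μ, ∀ᶠ n in atTop, ω ∉ VB μ ℱ A (Pool.Agent.R528.RM.lp W δ) (up W δ) n := by
    filter_upwards [hd, h01] with ω h1 h2
    filter_upwards [h1 δ hδ0] with n h3
    intro hcon
    apply hcon
    obtain ⟨h4, h5⟩ := abs_le.1 h3
    constructor
    · unfold Pool.Agent.R528.RM.lp
      linarith
    · exact le_min (h2 n).2 (by linarith)
  set K : ℝ := 8 + a + b + Real.exp (16 * W) with hK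
  have hexp : 0 < Real.exp (16 * (W : ℝ)) := Real.exp_pos _
  set M : ℕ := (r + 1) + (s + 1) with hM
  obtain ⟨K₀, hK₀⟩ := eventually_atTop.1 ((two_win hW hδ0 K).and ((ev_small K M hc'1).and
    ((ev_log (2 * W / δ + 2)).and (eventually_ge_atTop 3))))
  have hdiv : ¬ Summable (fun j : ℕ => 1 / ((W : ℝ) * j)) := by
    intro h
    apply Real.not_summable_one_div_natCast
    have h2 := h.mul_left (W : ℝ)
    refine h2.congr fun j => ?_
    have : (W : ℝ) ≠ 0 := by positivity
    rw [one_div, mul_inv, ← mul_assoc, mul_inv_cancel₀ this, one_mul, one_div]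
  have key : ∀ᵐ ω ∂μ, ∃ᶠ j in atTop, ω ∈ CylE A (ones u v W (W * j)) (W2 (pW W a (W * j)) (pW W b (W * j)) (W * j)) := by
    refine cyl_io hA hl0 hl1 hu0 hu1 hV (fun j => ones u v W (W * j)) (fun j => W2 (pW W a (W * j)) (pW W b (W * j)) (W * j))
      (fun j => Tq (W * j)) (K₀ + 1) ?_ (fun j => 1 / ((W : ℝ) * j)) (fun j _ => by positivity) ?_ hdiv
    · intro j hj
      have hjk : j ≤ W * j := Nat.le_mul_of_pos_left j hW
      obtain ⟨h1, h2, h3, h4⟩ := hK₀ (W * j) (by omega)
      obtain ⟨e1, e2, e3⟩ := TU (k := W * j) (by omega)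
      have hnext : Uq (W * j) ≤ Tq (W * (j + 1)) := TU_next (by
        have : W * (j + 1) = W * j + W := by ring
        omega)
      have hL0 : 0 ≤ Real.log ((W * j : ℕ) : ℝ) ^ 2 := by positivity
      obtain ⟨⟨r1, r2, r3⟩, r4, r5⟩ := h1 (pW W a (W * j)) (pW W b (W * j))
        ((pW_le hW ha0.le _).trans (mul_le_mul_of_nonneg_right (by rw [hK]; linarith) hL0))
        ((pW_le hW hb0.le _).trans (mul_le_mul_of_nonneg_right (by rw [hK]; linarith) hL0))
      refine ⟨by omega, by omega, ?_⟩
      intro n hn
      rcases Finset.mem_union.1 hn with hn | hn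
      · have := Finset.mem_Ioc.1 hn
        omega
      · have := Finset.mem_Ico.1 hn
        omega
    · intro j hj
      have hjk : j ≤ W * j := Nat.le_mul_of_pos_left j hW
      obtain ⟨h1, h2, h3, h4⟩ := hK₀ (W * j) (by omega)
      obtain ⟨e1, e2, e3⟩ := TU (k := W * j) (by omega)
      obtain ⟨cT, cU⟩ := cop_ends (j := j) hW (by omega)
      have hcast : ((W : ℝ) * j) = ((W * j : ℕ) : ℝ) := by push_cast; ring
      rw [hcast]
      set k : ℕ := W * j with hk
      have hk3 : (3 : ℝ) ≤ k := by exact_mod_cast h4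
      have hkp : (0 : ℝ) < k := by linarith
      have hL0 : 0 ≤ Real.log (k : ℝ) ^ 2 := by positivity
      have hlk2 : 2 ≤ Real.log (k : ℝ) := by
        have : 0 ≤ 2 * (W : ℝ) / δ := by positivity
        linarith
      have hlk : 0 < Real.log (k : ℝ) := by linarith
      have hWl : 2 * (W : ℝ) ≤ δ * Real.log k := by
        have : 2 * (W : ℝ) / δ ≤ Real.log k := by linarith
        rw [div_le_iff₀ hδ0] at this
        linarith
      have hpa := pW_le hW ha0.le k
      have hpb := pW_le hW hb0.le k
      obtain ⟨⟨r1, r2, r3⟩, r4, r5⟩ := h1 (pW W a k) (pW W b k)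
        (hpa.trans (mul_le_mul_of_nonneg_right (by rw [hK]; linarith) hL0))
        (hpb.trans (mul_le_mul_of_nonneg_right (by rw [hK]; linarith) hL0))
      set C : Finset ℕ := W2 (pW W a k) (pW W b k) k with hC
      have hCb : ∀ n ∈ C, k ^ 2 ≤ n ∧ n ≤ (3 * k) ^ 2 := by
        intro n hn
        have b1 : Uq k ≤ (3 * k) ^ 2 := Nat.pow_le_pow_left (by omega) 2
        rcases Finset.mem_union.1 hn with hn | hn
        · have := Finset.mem_Ioc.1 hn
          omega
        · have := Finset.mem_Ico.1 hn
          omega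
      have hlogs : ∀ n ∈ C, 2 * Real.log k ≤ Real.log n ∧ Real.log n ≤ 4 * Real.log k := by
        intro n hn
        obtain ⟨b1, b2⟩ := hCb n hn
        have a1 : ((k : ℝ)) ^ 2 ≤ n := by exact_mod_cast b1
        have a2 : (n : ℝ) ≤ (3 * k) ^ 2 := by exact_mod_cast b2
        have a0 : (0 : ℝ) < (k : ℝ) ^ 2 := by positivity
        constructor
        · have := Real.log_le_log a0 a1
          rw [Real.log_pow] at this
          push_cast at this
          exact this
        · have a3 := Real.log_le_log (lt_of_lt_of_le a0 a1) a2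
          rw [Real.log_pow, Real.log_mul (by norm_num) (by positivity)] at a3
          have a4 : Real.log 3 ≤ Real.log k := Real.log_le_log (by norm_num) hk3
          push_cast at a3
          linarith
      set lm : ℝ := 1 / (8 * Real.log k) with hlm
      have hlm0 : 0 ≤ lm := by positivity
      have hlm1 : lm ≤ 1 := by
        rw [hlm, div_le_one (by positivity)]
        linarith
      have hcard : (C.filter (fun n => n ∈ ones u v W k)).card ≤ M := by
        calc _ ≤ (ones u v W k).card := Finset.card_le_card fun n hn => (Finset.mem_filter.1 hn).2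
          _ ≤ _ := by
            unfold ones
            refine (Finset.card_union_le _ _).trans ?_
            refine Nat.add_le_add (Finset.card_image_le.trans ?_) (Finset.card_image_le.trans ?_)
            · rw [Finset.card_univ, Fintype.card_fin]
            · rw [Finset.card_univ, Fintype.card_fin]
      have hpr := prod_geF (c := fun n => n ∈ ones u v W k) (l := Pool.Agent.R528.RM.lp W δ) (u := up W δ) (lm := lm) (κ := δ)
        (C := C) (k := M) hlm0 hlm1 (by
          intro n hn hno
          have hcop : Nat.Coprime n W := by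
            unfold ones at hno
            rcases Finset.mem_union.1 hno with h5 | h5
            · obtain ⟨i, _, rfl⟩ := Finset.mem_image.1 h5
              unfold pW
              rw [Nat.coprime_add_mul_left_left]
              exact cT
            · obtain ⟨i, _, hi⟩ := Finset.mem_image.1 h5
              have hn0 := (hCb n hn).1
              have hk2 : 1 ≤ k ^ 2 := Nat.one_le_pow _ _ (by omega)
              have h6 : n + W * ⌊v i * Real.log k ^ 2 / W⌋₊ = Uq k := by
                unfold pW at hi
                omega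
              rw [← Nat.coprime_add_mul_left_left n W ⌊v i * Real.log k ^ 2 / W⌋₊, h6]
              exact cU
          obtain ⟨b1, b2⟩ := hlogs n hn
          have hln0 : 0 < Real.log (n : ℝ) := by linarith
          unfold Pool.Agent.R528.RM.lp rhoW
          rw [if_pos hcop]
          have e1' : 1 / (4 * Real.log k) ≤ min 1 (((W : ℝ) / Nat.totient W) / Real.log n) := by
            apply le_min
            · rw [div_le_one (by positivity)]; linarith
            · exact div_le_div₀ (by linarith) hWφ1 hln0 b2
          have e2' : lm ≤ (1 - δ) * (1 / (4 * Real.log k)) := by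
            have : lm = 1 / 2 * (1 / (4 * Real.log k)) := by rw [hlm]; field_simp; norm_num
            rw [this]
            apply mul_le_mul_of_nonneg_right (by linarith) (by positivity)
          exact e2'.trans (mul_le_mul_of_nonneg_left e1' (by linarith))) (by linarith) (fun n _ => hu0 n) (by
          intro n hn
          obtain ⟨b1, b2⟩ := hlogs n hn
          have hln0 : 0 < Real.log (n : ℝ) := by linarith
          have e0 : up W δ n ≤ (1 + δ) * rhoW W n := min_le_right _ _
          have e1' : rhoW W n ≤ W / (2 * Real.log k) := by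
            unfold rhoW
            split_ifs
            · refine (min_le_right _ _).trans ?_
              exact div_le_div₀ (by linarith) hWφ2 (by linarith) b1
            · positivity
          have e2' : (W : ℝ) / (2 * Real.log k) ≤ δ / 4 := by
            rw [div_le_iff₀ (by positivity)]
            linarith
          have hr0 := rhoW_nonneg W n
          nlinarith) hcard
      refine le_trans ?_ hpr
      have hS : ∑ n ∈ C, up W δ n ≤ (1 + δ) * (c * Real.log k + 4 * W) := by
        have f1 : ∑ n ∈ C, up W δ n ≤ ∑ n ∈ C, (1 + δ) * rhoW W n := Finset.sum_le_sum fun n _ => min_le_right _ _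
        rw [← Finset.mul_sum] at f1
        refine f1.trans (mul_le_mul_of_nonneg_left ?_ (by linarith))
        refine r5.trans ?_
        have f2 : (((pW W a k : ℕ) : ℝ) + (pW W b k : ℕ)) / (2 * Real.log k) ≤ c * Real.log k := by
          rw [div_le_iff₀ (by positivity)]
          have : c * Real.log k * (2 * Real.log k) = (a + b) * Real.log k ^ 2 := by rw [hc]; ring
          rw [this]
          linarith
        linarith
      have hS2 : (1 + δ) * ∑ n ∈ C, up W δ n ≤ c' * Real.log k + 16 * W := by
        have f1 : (1 + δ) * ∑ n ∈ C, up W δ n ≤ (1 + δ) * ((1 + δ) * (c * Real.log k + 4 * W)) :=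
          mul_le_mul_of_nonneg_left hS (by linarith)
        have f2 : (1 + δ) * (1 + δ) ≤ 1 + 3 * δ := by nlinarith
        have f3 : (1 + 3 * δ) * c ≤ c' := by
          rw [hc', hδ]
          nlinarith
        have f4 : (1 + δ) * ((1 + δ) * (c * Real.log k + 4 * W)) ≤ (1 + 3 * δ) * (c * Real.log k + 4 * W) := by
          rw [← mul_assoc]
          exact mul_le_mul_of_nonneg_right f2 (by positivity)
        have f5 : (1 + 3 * δ) * (c * Real.log k + 4 * W) = (1 + 3 * δ) * c * Real.log k + (1 + 3 * δ) * (4 * W) := by ring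
        have f6 : (1 + 3 * δ) * c * Real.log k ≤ c' * Real.log k := mul_le_mul_of_nonneg_right f3 hlk.le
        have f7 : (1 + 3 * δ) * (4 * (W : ℝ)) ≤ 16 * W := by nlinarith
        linarith
      have hfin : 1 / (k : ℝ) ≤ lm ^ M * Real.exp (-(c' * Real.log k + 16 * W)) := by
        have f1 : (8 * Real.log (k : ℝ)) ^ M * Real.exp (16 * W) ≤ (k : ℝ) ^ (1 - c') := by
          refine le_trans ?_ h2
          have g1 : 8 * Real.log (k : ℝ) ≤ K * Real.log k ^ 2 := by
            have g2 : Real.log (k : ℝ) ≤ Real.log k ^ 2 := by nlinarith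
            have g3 : 8 * Real.log (k : ℝ) ^ 2 ≤ K * Real.log k ^ 2 := mul_le_mul_of_nonneg_right (by rw [hK]; linarith) hL0
            linarith
          apply mul_le_mul (pow_le_pow_left₀ (by positivity) g1 M) _ (Real.exp_pos _).le (by positivity)
          rw [hK]
          linarith
        have f2 : (k : ℝ) ^ (1 - c') = k * Real.exp (-(c' * Real.log k)) := by
          rw [Real.rpow_sub hkp, Real.rpow_one, Real.rpow_def_of_pos hkp, Real.exp_neg, div_eq_mul_inv]
          rw [mul_comm (Real.log (k : ℝ)) c']
        have hpos8 : (0 : ℝ) < (8 * Real.log (k : ℝ)) ^ M := by positivity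
        rw [neg_add, Real.exp_add, hlm, one_div_pow, Real.exp_neg (16 * (W : ℝ)), div_le_iff₀ hkp]
        have f3 : 1 / (8 * Real.log (k : ℝ)) ^ M * (Real.exp (-(c' * Real.log k)) * (Real.exp (16 * (W : ℝ)))⁻¹) * k =
            (k * Real.exp (-(c' * Real.log k))) / ((8 * Real.log (k : ℝ)) ^ M * Real.exp (16 * W)) := by
          field_simp
        rw [f3, le_div_iff₀ (by positivity), one_mul, ← f2]
        exact f1
      refine hfin.trans (mul_le_mul_of_nonneg_left (Real.exp_le_exp.2 ?_) (by positivity))
      linarith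
  filter_upwards [key] with ω hω
  have hT : Tendsto (fun j : ℕ => W * j) atTop atTop := tendsto_id.const_mul_atTop' hW
  exact hT.frequently hω

end Pool.Agent.R481.RM
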