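import Mathlib
import Pool.Agent.R481.RM.EndsD

set_option autoImplicit false
set_option linter.unusedSectionVars false
set_option linter.unusedVariables false

/-! # From windows to the first and last elements -/

open MeasureTheory Filter Set
open scoped ENNReal Topology

namespace Pool.Agent.R481.RM

open Pool.Agent.R528.RM

/-- the distances from `m` to the elements of `S` above it -/
def Rd (S : Set ℕ) (m : ℕ) (d : ℕ) : Prop := 0 < d ∧ m + d ∈ S

/-- the distances from `m` to the elements of `S` below it -/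
def Ld (S : Set ℕ) (m : ℕ) (d : ℕ) : Prop := 0 < d ∧ d ≤ m ∧ m - d ∈ S

lemma nth_eq_of {P : ℕ → Prop} {r : ℕ} {p : Fin (r + 1) → ℕ} (hp : StrictMono p)
    (h : ∀ d ≤ p (Fin.last r), (P d ↔ ∃ j, p j = d)) (i : Fin (r + 1)) : Nat.nth P i = p i := by
  classical
  have hPi : P (p i) := (h (p i) (hp.monotone (Fin.le_last i))).2 ⟨i, rfl⟩
  have h1 := Nat.nth_count (p := P) hPi
  have h2 : Nat.count P (p i) = i := by
    rw [Nat.count_eq_card_filter_range]
    have h3 : (Finset.range (p i)).filter P = (Finset.Iio i).image p := by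
      ext d
      rw [Finset.mem_filter, Finset.mem_range, Finset.mem_image]
      constructor
      · rintro ⟨h4, h5⟩
        obtain ⟨j, rfl⟩ := (h d (h4.le.trans (hp.monotone (Fin.le_last i)))).1 h5
        exact ⟨j, Finset.mem_Iio.2 (hp.lt_iff_lt.1 h4), rfl⟩
      · rintro ⟨j, h4, rfl⟩
        exact ⟨hp (Finset.mem_Iio.1 h4), (h _ (hp.monotone (Fin.le_last j))).2 ⟨j, rfl⟩⟩
    rw [h3, Finset.card_image_of_injective _ hp.injective, Fin.card_Iio]
  rwa [h2] at h1

lemma pW_strict {W : ℕ} (hW : 0 < W) {u u' : ℝ} (hu : 0 ≤ u) (huu : u < u') :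
    ∀ᶠ k : ℕ in atTop, pW W u k < pW W u' k := by
  have hW' : (0 : ℝ) < W := by exact_mod_cast hW
  filter_upwards [ev_log (W / (u' - u) + 1), ev_log 1] with k h1 h2
  have h3 : 0 < u' - u := by linarith
  have h4 : (W : ℝ) < (u' - u) * Real.log k ^ 2 := by
    have e1 : (W : ℝ) / (u' - u) < Real.log k := by linarith
    rw [div_lt_iff₀ h3] at e1
    nlinarith
  unfold pW
  apply Nat.mul_lt_mul_of_pos_left _ hW
  rw [Nat.lt_iff_add_one_le]
  apply Nat.le_floor
  push_cast
  have h5 : ((⌊u * Real.log k ^ 2 / W⌋₊ : ℕ) : ℝ) ≤ u * Real.log k ^ 2 / W := Nat.floor_le (by positivity)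
  have h6 : u * Real.log k ^ 2 / W + 1 ≤ u' * Real.log k ^ 2 / W := by
    rw [← sub_nonneg]
    have : u' * Real.log k ^ 2 / W - (u * Real.log k ^ 2 / W + 1) = ((u' - u) * Real.log k ^ 2 - W) / W := by
      field_simp
      ring
    rw [this]
    exact div_nonneg (by linarith) hW'.le
  linarith

lemma pW_pos {W : ℕ} (hW : 0 < W) {u : ℝ} (hu : 0 < u) : ∀ᶠ k : ℕ in atTop, 0 < pW W u k := by
  filter_upwards [pW_strict hW le_rfl hu] with k hk
  omega

/-- on the event of `lower_law` the first and last elements are the prescribed ones -/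
lemma det {W : ℕ} (hW : 0 < W) {r s : ℕ} {u : Fin (r + 1) → ℝ} {v : Fin (s + 1) → ℝ} (hu : ∀ i, 0 < u i) (hv : ∀ i, 0 < v i)
    (hum : StrictMono u) (hvm : StrictMono v) : ∀ᶠ k : ℕ in atTop, ∀ S : Set ℕ,
      (∀ n ∈ W2 (pW W (u (Fin.last r)) k) (pW W (v (Fin.last s)) k) k, (n ∈ S ↔ n ∈ ones u v W k)) →
      (∀ i : Fin (r + 1), Nat.nth (Rd S (Tq k)) i = pW W (u i) k) ∧
      (∀ i : Fin (s + 1), Nat.nth (Ld S (Uq k)) i = pW W (v i) k) := by
  have e1 : ∀ᶠ k : ℕ in atTop, StrictMono (fun i => pW W (u i) k) := by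
    have : ∀ i j : Fin (r + 1), ∀ᶠ k : ℕ in atTop, i < j → pW W (u i) k < pW W (u j) k := by
      intro i j
      by_cases h : i < j
      · filter_upwards [pW_strict hW (hu i).le (hum h)] with k hk _
        exact hk
      · exact Eventually.of_forall fun k h' => absurd h' h
    filter_upwards [eventually_all.2 fun i => eventually_all.2 (this i)] with k hk i j hij
    exact hk i j hij
  have e2 : ∀ᶠ k : ℕ in atTop, StrictMono (fun i => pW W (v i) k) := by
    have : ∀ i j : Fin (s + 1), ∀ᶠ k : ℕ in atTop, i < j → pW W (v i) k < pW W (v j) k := by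
      intro i j
      by_cases h : i < j
      · filter_upwards [pW_strict hW (hv i).le (hvm h)] with k hk _
        exact hk
      · exact Eventually.of_forall fun k h' => absurd h' h
    filter_upwards [eventually_all.2 fun i => eventually_all.2 (this i)] with k hk i j hij
    exact hk i j hij
  set K : ℝ := u (Fin.last r) + v (Fin.last s) with hK
  have hul := hu (Fin.last r)
  have hvl := hv (Fin.last s)
  filter_upwards [e1, e2, pW_pos hW (hu 0), pW_pos hW (hv 0), two_win hW one_pos K, eventually_ge_atTop 1] with k h1 h2 h3 h4 h5 h6 S hS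
  have hL0 : 0 ≤ Real.log (k : ℝ) ^ 2 := by positivity
  obtain ⟨⟨r1, r2, r3⟩, _, _⟩ := h5 (pW W (u (Fin.last r)) k) (pW W (v (Fin.last s)) k)
    ((pW_le hW hul.le _).trans (mul_le_mul_of_nonneg_right (by rw [hK]; linarith) hL0))
    ((pW_le hW hvl.le _).trans (mul_le_mul_of_nonneg_right (by rw [hK]; linarith) hL0))
  have m1 : ∀ i, pW W (u i) k ≤ pW W (u (Fin.last r)) k := fun i => h1.monotone (Fin.le_last i)
  have m2 : ∀ i, pW W (v i) k ≤ pW W (v (Fin.last s)) k := fun i => h2.monotone (Fin.le_last i)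
  have p1 : ∀ i, 0 < pW W (u i) k := fun i => lt_of_lt_of_le h3 (h1.monotone (Fin.zero_le i))
  have p2 : ∀ i, 0 < pW W (v i) k := fun i => lt_of_lt_of_le h4 (h2.monotone (Fin.zero_le i))
  constructor
  · apply nth_eq_of h1
    intro d hd
    constructor
    · rintro ⟨g1, g2⟩
      have hin : Tq k + d ∈ W2 (pW W (u (Fin.last r)) k) (pW W (v (Fin.last s)) k) k :=
        Finset.mem_union_left _ (Finset.mem_Ioc.2 ⟨by omega, by omega⟩)
      have h7 := (hS _ hin).1 g2
      rcases Finset.mem_union.1 h7 with h8 | h8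
      · obtain ⟨j, _, hj⟩ := Finset.mem_image.1 h8
        exact ⟨j, by omega⟩
      · obtain ⟨j, _, hj⟩ := Finset.mem_image.1 h8
        have := m2 j
        omega
    · rintro ⟨j, rfl⟩
      refine ⟨p1 j, ?_⟩
      have hin : Tq k + pW W (u j) k ∈ W2 (pW W (u (Fin.last r)) k) (pW W (v (Fin.last s)) k) k :=
        Finset.mem_union_left _ (Finset.mem_Ioc.2 ⟨by have := p1 j; omega, by have := m1 j; omega⟩)
      exact (hS _ hin).2 (Finset.mem_union_left _ (Finset.mem_image.2 ⟨j, Finset.mem_univ _, rfl⟩))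
  · apply nth_eq_of h2
    intro d hd
    constructor
    · rintro ⟨g1, g2, g3⟩
      have hin : Uq k - d ∈ W2 (pW W (u (Fin.last r)) k) (pW W (v (Fin.last s)) k) k :=
        Finset.mem_union_right _ (Finset.mem_Ico.2 ⟨by omega, by omega⟩)
      have h7 := (hS _ hin).1 g3
      rcases Finset.mem_union.1 h7 with h8 | h8
      · obtain ⟨j, _, hj⟩ := Finset.mem_image.1 h8
        have := m1 j
        omega
      · obtain ⟨j, _, hj⟩ := Finset.mem_image.1 h8
        have := m2 j
        exact ⟨j, by omega⟩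
    · rintro ⟨j, rfl⟩
      have m2j := m2 j
      have p2j := p2 j
      refine ⟨p2j, by omega, ?_⟩
      have hin : Uq k - pW W (v j) k ∈ W2 (pW W (u (Fin.last r)) k) (pW W (v (Fin.last s)) k) k :=
        Finset.mem_union_right _ (Finset.mem_Ico.2 ⟨by omega, by omega⟩)
      exact (hS _ hin).2 (Finset.mem_union_right _ (Finset.mem_image.2 ⟨j, Finset.mem_univ _, rfl⟩))

/-- the counts in the two windows cannot both be small -/
lemma count_of {S : Set ℕ} {x y k r s : ℕ} [DecidablePred (Rd S (Tq k))] [DecidablePred (Ld S (Uq k))] (hroom : Tq k + x < Uq k - y)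
    (hy : y < Uq k)
    (h : ∀ R : Finset ℕ, R ⊆ W2 x y k → R.card ≤ r + s → ∃ n ∈ W2 x y k, n ∉ R ∧ n ∈ S) :
    r < Nat.count (Rd S (Tq k)) (x + 1) ∨ s < Nat.count (Ld S (Uq k)) (y + 1) := by
  classical
  by_contra hcon
  push Not at hcon
  obtain ⟨h1, h2⟩ := hcon
  set R₁ : Finset ℕ := (Finset.Ioc (Tq k) (Tq k + x)).filter (fun n => n ∈ S) with hR₁
  set R₂ : Finset ℕ := (Finset.Ico (Uq k - y) (Uq k)).filter (fun n => n ∈ S) with hR₂
  have c1 : R₁.card ≤ r := by
    refine le_trans ?_ h1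
    rw [Nat.count_eq_card_filter_range]
    apply Finset.card_le_card_of_injOn (fun n => n - Tq k)
    · intro n hn
      obtain ⟨g1, g2⟩ := Finset.mem_filter.1 (Finset.mem_coe.1 hn)
      obtain ⟨g3, g4⟩ := Finset.mem_Ioc.1 g1
      refine Finset.mem_coe.2 (Finset.mem_filter.2 ⟨Finset.mem_range.2 (by dsimp only; omega), ⟨by dsimp only; omega, ?_⟩⟩)
      show Tq k + (n - Tq k) ∈ S
      rwa [show Tq k + (n - Tq k) = n by omega]
    · intro n hn n' hn' hnn
      have g1 := (Finset.mem_Ioc.1 (Finset.mem_filter.1 (Finset.mem_coe.1 hn)).1).1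
      have g2 := (Finset.mem_Ioc.1 (Finset.mem_filter.1 (Finset.mem_coe.1 hn')).1).1
      simp only at hnn
      omega
  have c2 : R₂.card ≤ s := by
    refine le_trans ?_ h2
    rw [Nat.count_eq_card_filter_range]
    apply Finset.card_le_card_of_injOn (fun n => Uq k - n)
    · intro n hn
      obtain ⟨g1, g2⟩ := Finset.mem_filter.1 (Finset.mem_coe.1 hn)
      obtain ⟨g3, g4⟩ := Finset.mem_Ico.1 g1
      refine Finset.mem_coe.2 (Finset.mem_filter.2 ⟨Finset.mem_range.2 (by dsimp only; omega), ⟨by dsimp only; omega, by dsimp only; omega, ?_⟩⟩)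
      show Uq k - (Uq k - n) ∈ S
      rwa [show Uq k - (Uq k - n) = n by omega]
    · intro n hn n' hn' hnn
      have g1 := (Finset.mem_Ico.1 (Finset.mem_filter.1 (Finset.mem_coe.1 hn)).1).2
      have g2 := (Finset.mem_Ico.1 (Finset.mem_filter.1 (Finset.mem_coe.1 hn')).1).2
      simp only at hnn
      omega
  obtain ⟨n, g1, g2, g3⟩ := h (R₁ ∪ R₂) (by
    intro n hn
    rcases Finset.mem_union.1 hn with hn | hn
    · exact Finset.mem_union_left _ (Finset.mem_filter.1 hn).1
    · exact Finset.mem_union_right _ (Finset.mem_filter.1 hn).1) ((Finset.card_union_le _ _).trans (by omega))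
  apply g2
  rcases Finset.mem_union.1 g1 with g4 | g4
  · exact Finset.mem_union_left _ (Finset.mem_filter.2 ⟨g4, g3⟩)
  · exact Finset.mem_union_right _ (Finset.mem_filter.2 ⟨g4, g3⟩)

end Pool.Agent.R481.RM
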