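import Mathlib

set_option autoImplicit false

/-! # An asymptotic inversion -/

open Filter
open scoped Topology

namespace Pool.Agent.R481.RM

/-- `⌊exp (b y log y)⌋` -/
noncomputable def xb (b : ℝ) (y : ℕ) : ℕ := ⌊Real.exp (b * y * Real.log y)⌋₊

lemma tlog : Tendsto (fun y : ℕ => Real.log (y : ℝ)) atTop atTop :=
  Real.tendsto_log_atTop.comp tendsto_natCast_atTop_atTop

lemma tT {b : ℝ} (hb : 0 < b) : Tendsto (fun y : ℕ => b * y * Real.log y) atTop atTop :=
  (tendsto_natCast_atTop_atTop.const_mul_atTop hb).atTop_mul_atTop₀ tlog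

lemma txb {b : ℝ} (hb : 0 < b) : Tendsto (xb b) atTop atTop :=
  tendsto_nat_floor_atTop.comp (Real.tendsto_exp_atTop.comp (tT hb))

lemma log_xb {b : ℝ} (hb : 0 < b) : ∀ᶠ y : ℕ in atTop,
    b * y * Real.log y - 1 ≤ Real.log (xb b y) ∧ Real.log (xb b y) ≤ b * y * Real.log y := by
  filter_upwards [(tT hb).eventually_ge_atTop 1, (txb hb).eventually_ge_atTop 1] with y h1 h2
  set T : ℝ := b * y * Real.log y with hT
  have h3 : (xb b y : ℝ) ≤ Real.exp T := Nat.floor_le (Real.exp_pos _).le
  have h4 : Real.exp T < xb b y + 1 := Nat.lt_floor_add_one _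
  have hx : (1 : ℝ) ≤ xb b y := by exact_mod_cast h2
  constructor
  · rw [Real.le_log_iff_exp_le (by linarith)]
    have h5 : Real.exp T = Real.exp (T - 1) * Real.exp 1 := by
      rw [← Real.exp_add]
      congr 1
      ring
    have h6 : 2 ≤ Real.exp 1 := by
      have := Real.add_one_le_exp (1 : ℝ)
      linarith
    have h7 : 0 < Real.exp (T - 1) := Real.exp_pos _
    nlinarith
  · rw [← Real.log_exp T]
    exact Real.log_le_log (by linarith) h3

/-- the inversion -/
theorem inv_tendsto {b : ℝ} (hb : 0 < b) :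
    Tendsto (fun y : ℕ => (y : ℝ) * Real.log (Real.log (xb b y)) / Real.log (xb b y)) atTop (𝓝 (1 / b)) := by
  have hTT := tT hb
  have r1 : Tendsto (fun y : ℕ => Real.log (xb b y) / (b * y * Real.log y)) atTop (𝓝 1) := by
    have g1 : Tendsto (fun y : ℕ => 1 - 1 / (b * y * Real.log y)) atTop (𝓝 (1 - 0)) :=
      tendsto_const_nhds.sub (tendsto_const_nhds.div_atTop hTT)
    rw [sub_zero] at g1
    refine tendsto_of_tendsto_of_tendsto_of_le_of_le' g1 tendsto_const_nhds ?_ ?_
    · filter_upwards [log_xb hb, hTT.eventually_ge_atTop 1] with y h1 h2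
      have h3 : 0 < b * y * Real.log y := by linarith
      rw [le_div_iff₀ h3, sub_mul, one_mul, div_mul_cancel₀ _ h3.ne']
      exact h1.1
    · filter_upwards [log_xb hb, hTT.eventually_ge_atTop 1] with y h1 h2
      have h3 : 0 < b * y * Real.log y := by linarith
      rw [div_le_one h3]
      exact h1.2
  have r2 : Tendsto (fun y : ℕ => Real.log (Real.log (xb b y)) / Real.log (b * y * Real.log y)) atTop (𝓝 1) := by
    have g1 : Tendsto (fun y : ℕ => 1 + Real.log (Real.log (xb b y) / (b * y * Real.log y)) /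
        Real.log (b * y * Real.log y)) atTop (𝓝 (1 + 0)) := by
      apply tendsto_const_nhds.add
      have g2 : Tendsto (fun y : ℕ => Real.log (Real.log (xb b y) / (b * y * Real.log y))) atTop (𝓝 (Real.log 1)) :=
        (Real.continuousAt_log one_ne_zero).tendsto.comp r1
      exact g2.div_atTop (Real.tendsto_log_atTop.comp hTT)
    rw [add_zero] at g1
    refine g1.congr' ?_
    filter_upwards [log_xb hb, hTT.eventually_ge_atTop 3] with y h1 h2
    have h3 : 0 < b * y * Real.log y := by linarith
    have h4 : 0 < Real.log (xb b y) := by linarith [h1.1]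
    have h5 : 0 < Real.log (b * y * Real.log y) := Real.log_pos (by linarith)
    rw [Real.log_div h4.ne' h3.ne']
    field_simp
    ring
  have r3 : Tendsto (fun y : ℕ => Real.log (b * y * Real.log y) / Real.log y) atTop (𝓝 1) := by
    have g1 : Tendsto (fun y : ℕ => Real.log b / Real.log y + 1 + Real.log (Real.log y) / Real.log y) atTop (𝓝 (0 + 1 + 0)) := by
      apply Tendsto.add
      · apply Tendsto.add _ tendsto_const_nhds
        exact tendsto_const_nhds.div_atTop tlog
      · exact (Real.isLittleO_log_id_atTop.tendsto_div_nhds_zero).comp tlog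
    rw [zero_add, add_zero] at g1
    refine g1.congr' ?_
    filter_upwards [tlog.eventually_ge_atTop 1, eventually_ge_atTop 1] with y h1 h2
    have hy : (0 : ℝ) < y := by exact_mod_cast h2
    have h3 : 0 < Real.log y := by linarith
    rw [Real.log_mul (by positivity) h3.ne', Real.log_mul hb.ne' hy.ne']
    field_simp
  have r4 : Tendsto (fun y : ℕ => (Real.log (Real.log (xb b y)) / Real.log (b * y * Real.log y)) *
      (Real.log (b * y * Real.log y) / Real.log y) * (Real.log (xb b y) / (b * y * Real.log y))⁻¹ * (1 / b))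
      atTop (𝓝 (1 * 1 * 1⁻¹ * (1 / b))) :=
    ((r2.mul r3).mul (r1.inv₀ one_ne_zero)).mul tendsto_const_nhds
  have e : (1 : ℝ) * 1 * 1⁻¹ * (1 / b) = 1 / b := by ring
  rw [e] at r4
  refine r4.congr' ?_
  filter_upwards [log_xb hb, hTT.eventually_ge_atTop 3, tlog.eventually_ge_atTop 1, eventually_ge_atTop 1] with y h1 h2 h3 h4
  have hy : (0 : ℝ) < y := by exact_mod_cast h4
  have h5 : 0 < Real.log (xb b y) := by linarith [h1.1]
  have h6 : 0 < Real.log (b * y * Real.log y) := Real.log_pos (by linarith)
  have h7 : 0 < Real.log (y : ℝ) := by linarith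
  have h8 : 0 < b * y * Real.log y := by linarith
  field_simp

end Pool.Agent.R481.RM
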