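import Mathlib
import Pool.Agent.R481.RM.Ends1
import Pool.Agent.R528.RM.Sp1

set_option autoImplicit false
set_option linter.unusedSectionVars false
set_option linter.unusedVariables false

/-! # Windows with unusually many chosen integers -/

open MeasureTheory Filter Set
open scoped ENNReal Topology

namespace Pool.Agent.R481.RM

open Pool.Agent.R528.RM

variable {Ω : Type} {m0 : MeasurableSpace Ω} {μ : Measure Ω} [IsProbabilityMeasure μ]
  {ℱ : Filtration ℕ m0} {A : ℕ → Set Ω}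

lemma c0_pos {ε : ℝ} (hε0 : 0 < ε) : 0 < Real.log (1 + ε) - ε / (1 + ε) := by
  have h1 : (1 + ε)⁻¹ ≠ 1 := by
    intro h
    rw [inv_eq_one] at h
    linarith
  have h2 := Real.log_lt_sub_one_of_pos (inv_pos.2 (show 0 < 1 + ε by linarith)) h1
  rw [Real.log_inv] at h2
  have h3 : ε / (1 + ε) = 1 - (1 + ε)⁻¹ := by
    field_simp
    ring
  rw [h3]
  linarith

/-- the numerical estimate -/
lemma pair_est (W : ℕ) {ε δ δ' : ℝ} (hε0 : 0 < ε) (hε1 : ε < 1) (hδ0 : 0 ≤ δ) (hδ'0 : 0 ≤ δ')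
    (hδ : 3 * δ ≤ (Real.log (1 + ε) - ε / (1 + ε)) / 4) (hδ' : δ' ≤ (Real.log (1 + ε) - ε / (1 + ε)) / 4) :
    ∀ᶠ y : ℕ in atTop, ∀ M : ℝ, (1 + ε) * Real.log y ≤ M → ∃ s : ℝ, 1 ≤ s ∧ ∀ κ : ℝ,
      (1 - δ') * y / Real.log y ≤ κ → M / ((1 - ε) * Real.log y) ≤ κ →
      -(κ * Real.log s) + (s * (1 + δ) - (1 - δ)) * (((y : ℝ) + 2 * W) / M) ≤ -((1 + ε / 6) * M) - Real.sqrt y := by
  set c₀ : ℝ := Real.log (1 + ε) - ε / (1 + ε) with hc₀
  have hc0 : 0 < c₀ := c0_pos hε0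
  set η : ℝ := ε / 6 with hη
  have hη0 : 0 < η := by rw [hη]; linarith
  have hη1 : η < 1 / 6 := by rw [hη]; linarith
  have hlog1 : Real.log (1 + ε) ≤ 1 := by
    have := Real.log_le_sub_one_of_pos (show 0 < 1 + ε by linarith)
    linarith
  have hlog0 : 0 < Real.log (1 + ε) := Real.log_pos (by linarith)
  have hεε : 0 < ε / (1 + ε) := by positivity
  have hεε1 : ε / (1 + ε) ≤ 1 := by rw [div_le_one (by linarith)]; linarith
  have hc1 : c₀ ≤ 1 := by rw [hc₀]; linarith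
  -- eventual conditions
  have ev2 : ∀ᶠ y : ℕ in atTop, Real.log y * (2 * (y : ℝ) ^ (1 - η) + Real.sqrt y + 4 * W) ≤ c₀ / 4 * y := by
    have t1 := (isLittleO_log_rpow_rpow_atTop (1 : ℝ) (show (0 : ℝ) < η / 2 by linarith)).comp_tendsto
      (tendsto_natCast_atTop_atTop (R := ℝ))
    have hb : (0 : ℝ) < c₀ / (4 * (3 + 4 * W)) := by positivity
    filter_upwards [t1.bound hb, eventually_ge_atTop 1] with y h1 h2
    have hy : (1 : ℝ) ≤ y := by exact_mod_cast h2
    have hl : 0 ≤ Real.log (y : ℝ) := Real.log_nonneg hy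
    simp only [Function.comp_apply, Real.rpow_one] at h1
    rw [Real.norm_of_nonneg hl, Real.norm_of_nonneg (Real.rpow_nonneg (by linarith) _)] at h1
    have e1 : Real.sqrt y ≤ (y : ℝ) ^ (1 - η) := by
      rw [Real.sqrt_eq_rpow]
      exact Real.rpow_le_rpow_of_exponent_le hy (by linarith)
    have e2 : (1 : ℝ) ≤ (y : ℝ) ^ (1 - η) := Real.one_le_rpow hy (by linarith)
    have e3 : 2 * (y : ℝ) ^ (1 - η) + Real.sqrt y + 4 * W ≤ (3 + 4 * W) * (y : ℝ) ^ (1 - η) := by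
      have : 4 * (W : ℝ) ≤ 4 * W * (y : ℝ) ^ (1 - η) := le_mul_of_one_le_right (by positivity) e2
      linarith
    have e4 : (y : ℝ) ^ (η / 2) * (y : ℝ) ^ (1 - η) ≤ y := by
      rw [← Real.rpow_add (by linarith)]
      calc (y : ℝ) ^ (η / 2 + (1 - η)) ≤ (y : ℝ) ^ (1 : ℝ) := Real.rpow_le_rpow_of_exponent_le hy (by linarith)
        _ = y := Real.rpow_one _
    have hp0 : 0 ≤ (y : ℝ) ^ (1 - η) := by linarith
    calc Real.log y * (2 * (y : ℝ) ^ (1 - η) + Real.sqrt y + 4 * W)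
        ≤ (c₀ / (4 * (3 + 4 * W)) * (y : ℝ) ^ (η / 2)) * ((3 + 4 * W) * (y : ℝ) ^ (1 - η)) :=
          mul_le_mul h1 e3 (by positivity) (by positivity)
      _ = c₀ / 4 * ((y : ℝ) ^ (η / 2) * (y : ℝ) ^ (1 - η)) := by field_simp
      _ ≤ c₀ / 4 * y := mul_le_mul_of_nonneg_left e4 (by positivity)
  have hll : Tendsto (fun y : ℕ => Real.log (Real.log (y : ℝ)) / Real.log y) atTop (𝓝 0) := by
    have := Real.isLittleO_log_id_atTop.tendsto_div_nhds_zero.comp tendsto_log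
    exact this
  have ev3 : ∀ᶠ y : ℕ in atTop, Real.log (Real.log y) + 8 ≤ η * Real.log y := by
    filter_upwards [hll.eventually_lt_const (show (0 : ℝ) < η / 2 by linarith), ev_log (16 / η), ev_log 1] with y h1 h2 h3
    have hl : 0 < Real.log (y : ℝ) := by linarith
    rw [div_lt_iff₀ hl] at h1
    rw [div_le_iff₀ hη0] at h2
    linarith
  have ev4 : ∀ᶠ y : ℕ in atTop, Real.sqrt y ≤ ε / 4 * y := by
    filter_upwards [eventually_ge_atTop ⌈16 / ε ^ 2⌉₊] with y h1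
    have h2 : 16 / ε ^ 2 ≤ y := Nat.ceil_le.1 h1
    have h0 : (0 : ℝ) ≤ y := Nat.cast_nonneg y
    rw [Real.sqrt_le_left (by positivity)]
    rw [div_le_iff₀ (by positivity)] at h2
    nlinarith
  filter_upwards [ev2, ev3, ev4, ev_log 1, eventually_ge_atTop (2 * W), eventually_ge_atTop 1] with y h2 h3 h4 h5 h6 h7 M hM
  set L : ℝ := Real.log y with hL
  have hL0 : 0 < L := by linarith
  have hy1 : (1 : ℝ) ≤ y := by exact_mod_cast h7
  have hy0 : (0 : ℝ) < y := by linarith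
  have hW2 : 2 * (W : ℝ) ≤ y := by exact_mod_cast h6
  have hM0 : 0 < M := lt_of_lt_of_le (by positivity) hM
  have hLM : L ≤ M := by nlinarith
  have hs0 : 0 ≤ Real.sqrt y := Real.sqrt_nonneg _
  rcases le_or_gt M ((y : ℝ) ^ (1 - η)) with hcase | hcase
  · refine ⟨1 + ε, by linarith, ?_⟩
    intro κ hκ1 hκ2
    have e1 : (y / L) * (Real.log (1 + ε) - δ') ≤ κ * Real.log (1 + ε) := by
      have a1 : (1 - δ') * y / L * Real.log (1 + ε) ≤ κ * Real.log (1 + ε) := mul_le_mul_of_nonneg_right hκ1 hlog0.le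
      have a2 : (1 - δ') * y / L * Real.log (1 + ε) = (y / L) * (Real.log (1 + ε) - δ' * Real.log (1 + ε)) := by ring
      have a3 : δ' * Real.log (1 + ε) ≤ δ' := by nlinarith
      have a4 : 0 ≤ y / L := by positivity
      nlinarith
    have e2 : ((1 + ε) * (1 + δ) - (1 - δ)) * (((y : ℝ) + 2 * W) / M) ≤ (y / L) * (ε / (1 + ε) + 3 * δ) + 4 * W := by
      have a1 : (1 + ε) * (1 + δ) - (1 - δ) ≤ ε + 3 * δ := by nlinarith
      have a2 : ((y : ℝ) + 2 * W) / M ≤ ((y : ℝ) + 2 * W) / ((1 + ε) * L) := div_le_div_of_nonneg_left (by positivity) (by positivity) hM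
      have a3 : ((1 + ε) * (1 + δ) - (1 - δ)) * (((y : ℝ) + 2 * W) / M) ≤ (ε + 3 * δ) * (((y : ℝ) + 2 * W) / ((1 + ε) * L)) :=
        mul_le_mul a1 a2 (by positivity) (by positivity)
      have a4 : (ε + 3 * δ) * (((y : ℝ) + 2 * W) / ((1 + ε) * L)) = (y / L) * ((ε + 3 * δ) / (1 + ε)) + 2 * W * ((ε + 3 * δ) / ((1 + ε) * L)) := by
        field_simp
      have a5 : (ε + 3 * δ) / (1 + ε) ≤ ε / (1 + ε) + 3 * δ := by
        rw [add_div]
        have : 3 * δ / (1 + ε) ≤ 3 * δ := div_le_self (by linarith) (by linarith)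
        linarith
      have a6 : (ε + 3 * δ) / ((1 + ε) * L) ≤ 2 := by
        rw [div_le_iff₀ (by positivity)]
        nlinarith
      have a7 : (y / L) * ((ε + 3 * δ) / (1 + ε)) ≤ (y / L) * (ε / (1 + ε) + 3 * δ) := mul_le_mul_of_nonneg_left a5 (by positivity)
      have a8 : 2 * (W : ℝ) * ((ε + 3 * δ) / ((1 + ε) * L)) ≤ 2 * W * 2 := mul_le_mul_of_nonneg_left a6 (by positivity)
      linarith
    have e3 : 2 * (y : ℝ) ^ (1 - η) + Real.sqrt y + 4 * W ≤ (y / L) * (c₀ / 4) := by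
      rw [div_mul_eq_mul_div, le_div_iff₀ hL0]
      linarith
    have e4 : (y / L) * (c₀ / 4) ≤ (y / L) * (Real.log (1 + ε) - δ') - (y / L) * (ε / (1 + ε) + 3 * δ) := by
      rw [← mul_sub]
      apply mul_le_mul_of_nonneg_left _ (by positivity)
      rw [hc₀] at hδ hδ' ⊢
      linarith [hc0]
    have e5 : (1 + η) * M ≤ 2 * (y : ℝ) ^ (1 - η) := by nlinarith
    linarith
  · refine ⟨M / L, by rw [one_le_div hL0]; exact hLM, ?_⟩
    intro κ hκ1 hκ2
    have hδq : δ ≤ 1 / 12 := by linarith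
    have hδq' : δ' ≤ 1 / 4 := by linarith
    have k1 : y / 2 ≤ κ * L := by
      rw [div_le_iff₀ hL0] at hκ1
      nlinarith
    have k2 : M ≤ (1 - ε) * (κ * L) := by
      rw [div_le_iff₀ (mul_pos (by linarith) hL0)] at hκ2
      linarith
    have hκ0 : 0 ≤ κ := by
      by_contra hcon
      push Not at hcon
      nlinarith
    have e1 : (M / L * (1 + δ) - (1 - δ)) * (((y : ℝ) + 2 * W) / M) ≤ 8 * κ := by
      have a0 : 0 < M / L := by positivity
      have a1 : M / L * (1 + δ) - (1 - δ) ≤ 2 * (M / L) := by nlinarith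
      have a2 : ((y : ℝ) + 2 * W) / M ≤ 2 * y / M := div_le_div_of_nonneg_right (by linarith) hM0.le
      have a3 : (M / L * (1 + δ) - (1 - δ)) * (((y : ℝ) + 2 * W) / M) ≤ 2 * (M / L) * (2 * y / M) :=
        mul_le_mul a1 a2 (by positivity) (by positivity)
      have a4 : 2 * (M / L) * (2 * (y : ℝ) / M) = 4 * y / L := by field_simp; ring
      have a5 : 4 * (y : ℝ) / L ≤ 8 * κ := by
        rw [div_le_iff₀ hL0]
        linarith
      linarith
    have e2 : (1 - 2 * η) * L + 8 ≤ Real.log (M / L) := by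
      rw [Real.log_div hM0.ne' hL0.ne']
      have a1 : Real.log ((y : ℝ) ^ (1 - η)) ≤ Real.log M := Real.log_le_log (by positivity) hcase.le
      rw [Real.log_rpow hy0] at a1
      linarith
    have e3 : κ * ((1 - 2 * η) * L + 8) ≤ κ * Real.log (M / L) := mul_le_mul_of_nonneg_left e2 hκ0
    have e4 : (1 + η) * M + ε / 4 * y ≤ κ * ((1 - 2 * η) * L) := by
      have a1 : κ * ((1 - 2 * η) * L) = (1 + η) * ((1 - ε) * (κ * L)) + (ε - 3 * η + η * ε) * (κ * L) := by ring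
      rw [a1]
      have a2 : (1 + η) * M ≤ (1 + η) * ((1 - ε) * (κ * L)) := mul_le_mul_of_nonneg_left k2 (by linarith)
      have a3 : ε / 2 * (κ * L) ≤ (ε - 3 * η + η * ε) * (κ * L) := by
        apply mul_le_mul_of_nonneg_right _ (mul_nonneg hκ0 hL0.le)
        rw [hη]
        nlinarith
      have a4 : ε / 2 * (y / 2) ≤ ε / 2 * (κ * L) := mul_le_mul_of_nonneg_left k1 (by linarith)
      linarith
    linarith

lemma summable_exp_sqrt : Summable (fun y : ℕ => Real.exp (-Real.sqrt y)) := by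
  have h1 : Tendsto (fun y : ℕ => Real.sqrt (y : ℝ)) atTop atTop := Real.tendsto_sqrt_atTop.comp tendsto_natCast_atTop_atTop
  have h2 := (Real.tendsto_pow_mul_exp_neg_atTop_nhds_zero 4).comp h1
  have h3 : ∀ᶠ y : ℕ in atTop, Real.exp (-Real.sqrt y) ≤ (y : ℝ) ^ (-2 : ℝ) := by
    filter_upwards [h2.eventually_lt_const one_pos, eventually_gt_atTop 0] with y h4 h5
    have hy : (0 : ℝ) < y := by exact_mod_cast h5
    simp only [Function.comp_apply] at h4
    have h6 : Real.sqrt (y : ℝ) ^ 4 = (y : ℝ) ^ 2 := by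
      rw [show (4 : ℕ) = 2 * 2 by norm_num, pow_mul, Real.sq_sqrt hy.le]
    rw [h6] at h4
    rw [Real.rpow_neg hy.le, Real.rpow_two, ← one_div, le_div_iff₀ (by positivity)]
    linarith
  refine Summable.of_norm_bounded_eventually_nat (Real.summable_nat_rpow.2 (show (-2 : ℝ) < -1 by norm_num)) ?_
  filter_upwards [h3] with y hy
  rw [Real.norm_of_nonneg (Real.exp_pos _).le]
  exact hy

/-- an upper bound for the number of chosen integers in all windows -/
theorem tail_law (hA : ∀ n, MeasurableSet[ℱ n] (A n)) {W : ℕ} (hW : 0 < W)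
    (hd : ∀ᵐ ω ∂μ, ∀ ε : ℝ, 0 < ε → ∀ᶠ n : ℕ in atTop, |dens μ ℱ A n ω - rhoW W (n + 1)| ≤ ε * rhoW W (n + 1))
    {ε δ' : ℝ} (hε0 : 0 < ε) (hε1 : ε < 1) (hδ'0 : 0 ≤ δ') (hδ' : δ' ≤ (Real.log (1 + ε) - ε / (1 + ε)) / 4) :
    ∀ᵐ ω ∂μ, ∀ᶠ y : ℕ in atTop, ∀ m : ℕ, (1 + ε) * Real.log y ≤ Real.log m →
      (cnt A m y ω : ℝ) < max ((1 - δ') * y / Real.log y) (Real.log m / ((1 - ε) * Real.log y)) := by
  classical
  have hc0 := c0_pos hε0
  set δ : ℝ := (Real.log (1 + ε) - ε / (1 + ε)) / 12 with hδ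
  have hδ0 : 0 < δ := by rw [hδ]; linarith
  have hlog1 : Real.log (1 + ε) ≤ 1 := by
    have := Real.log_le_sub_one_of_pos (show 0 < 1 + ε by linarith)
    linarith
  have hεε : 0 < ε / (1 + ε) := by positivity
  have hδ1 : δ ≤ 1 := by rw [hδ]; linarith
  have hl1 : ∀ n, Pool.Agent.R528.RM.lp W δ n ≤ 1 := by
    intro n
    have h1 := rhoW_le W n
    have h2 := rhoW_nonneg W n
    unfold Pool.Agent.R528.RM.lp
    nlinarith
  have hu0 : ∀ n, 0 ≤ up W δ n := fun n => le_min zero_le_one (mul_nonneg (by linarith) (rhoW_nonneg W n))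
  have h01 : ∀ᵐ ω ∂μ, ∀ n, 0 ≤ dens μ ℱ A n ω ∧ dens μ ℱ A n ω ≤ 1 := ae_all_iff.2 fun n => dens01 hA n
  have hV : ∀ᵐ ω ∂μ, ∀ᶠ n in atTop, ω ∉ VB μ ℱ A (Pool.Agent.R528.RM.lp W δ) (up W δ) n := by
    filter_upwards [hd, h01] with ω h1 h2
    filter_upwards [h1 δ hδ0] with n h3
    intro hcon
    apply hcon
    obtain ⟨h4, h5⟩ := abs_le.1 h3
    constructor
    · unfold Pool.Agent.R528.RM.lp
      linarith
    · exact le_min (h2 n).2 (by linarith)
  set κ : ℕ → ℕ → ℝ := fun y m => max ((1 - δ') * y / Real.log y) (Real.log m / ((1 - ε) * Real.log y)) with hκ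
  obtain ⟨s₀, hs₀⟩ := eventually_atTop.1 (win_bounds hW)
  obtain ⟨y₀, hy₀⟩ := eventually_atTop.1 ((pair_est W hε0 hε1 hδ0.le hδ'0 (by rw [hδ]; linarith) hδ').and
    ((ev_log 1).and (eventually_ge_atTop (s₀ + 2))))
  set E : ℕ × ℕ → Set Ω := fun p => if y₀ ≤ p.1 ∧ (1 + ε) * Real.log p.1 ≤ Real.log p.2 then
    {ω | cnt A p.2 p.1 ω ∈ {k : ℕ | κ p.1 p.2 ≤ k}} \ WV (VB μ ℱ A (Pool.Agent.R528.RM.lp W δ) (up W δ)) p.2 p.1 else ∅ with hE
  have hsum : Summable (fun p : ℕ × ℕ => Real.exp (-Real.sqrt p.1) * (p.2 : ℝ) ^ (-(1 + ε / 6))) :=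
    summable_exp_sqrt.mul_of_nonneg (Real.summable_nat_rpow.2 (by linarith)) (fun _ => (Real.exp_pos _).le)
      (fun _ => Real.rpow_nonneg (Nat.cast_nonneg _) _)
  have hmy : ∀ y m : ℕ, 2 ≤ y → (1 + ε) * Real.log y ≤ Real.log m → y ≤ m := by
    intro y m hy h
    by_contra hcon
    push Not at hcon
    have hy' : (2 : ℝ) ≤ y := by exact_mod_cast hy
    have hly : 0 < Real.log (y : ℝ) := Real.log_pos (by linarith)
    rcases Nat.eq_zero_or_pos m with rfl | hm
    · rw [Nat.cast_zero, Real.log_zero] at h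
      nlinarith
    · have : Real.log (m : ℝ) ≤ Real.log y := Real.log_le_log (by exact_mod_cast hm) (by exact_mod_cast hcon.le)
      nlinarith
  have hbd : ∀ p : ℕ × ℕ, μ.real (E p) ≤ Real.exp (-Real.sqrt p.1) * (p.2 : ℝ) ^ (-(1 + ε / 6)) := by
    rintro ⟨y, m⟩
    show μ.real (E (y, m)) ≤ Real.exp (-Real.sqrt y) * (m : ℝ) ^ (-(1 + ε / 6))
    by_cases h : y₀ ≤ y ∧ (1 + ε) * Real.log y ≤ Real.log m
    · obtain ⟨h1, h2, h3⟩ := hy₀ y h.1
      obtain ⟨s, hs1, hs2⟩ := h1 (Real.log m) h.2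
      have hmy' := hmy y m (by omega) h.2
      have hm0 : (0 : ℝ) < m := by exact_mod_cast (by omega : 0 < m)
      have e0 : E (y, m) = {ω | cnt A m y ω ∈ {k : ℕ | κ y m ≤ k}} \ WV (VB μ ℱ A (Pool.Agent.R528.RM.lp W δ) (up W δ)) m y := by
        rw [hE]
        exact if_pos h
      rw [e0]
      have e1 := cnt_tail_prof (μ := μ) (ℱ := ℱ) hA hl1 hu0 (s := s) (κ := κ y m) (by linarith) {k : ℕ | κ y m ≤ k} (by
        intro k hk
        rw [← Real.rpow_natCast s k]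
        exact Real.rpow_le_rpow_of_exponent_le hs1 hk) m y
      refine e1.trans ?_
      have e2 : ∑ i ∈ Finset.range y, (s * up W δ (m + 1 + i) - Pool.Agent.R528.RM.lp W δ (m + 1 + i)) ≤
          (s * (1 + δ) - (1 - δ)) * (((y : ℝ) + 2 * W) / Real.log m) := by
        have g1 : ∑ i ∈ Finset.range y, (s * up W δ (m + 1 + i) - Pool.Agent.R528.RM.lp W δ (m + 1 + i)) ≤
            ∑ i ∈ Finset.range y, (s * (1 + δ) - (1 - δ)) * rhoW W (m + 1 + i) := by
          apply Finset.sum_le_sum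
          intro i _
          have g2 : up W δ (m + 1 + i) ≤ (1 + δ) * rhoW W (m + 1 + i) := min_le_right _ _
          have g3 := mul_le_mul_of_nonneg_left g2 (show 0 ≤ s by linarith)
          unfold Pool.Agent.R528.RM.lp
          linarith
        rw [← Finset.mul_sum, sum_rhoW_eq, ← sum_Ioc_rho] at g1
        refine g1.trans (mul_le_mul_of_nonneg_left ?_ (by nlinarith))
        have g4 := (hs₀ m (by omega) (m + y) (by omega)).2
        refine g4.trans (le_of_eq ?_)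
        push_cast
        ring
      rw [← Real.exp_add]
      have e3 := hs2 (κ y m) (le_max_left _ _) (le_max_right _ _)
      have e4 : Real.exp (-Real.sqrt y) * (m : ℝ) ^ (-(1 + ε / 6)) = Real.exp (-((1 + ε / 6) * Real.log m) - Real.sqrt y) := by
        rw [Real.rpow_def_of_pos hm0, ← Real.exp_add]
        congr 1
        ring
      rw [e4]
      apply Real.exp_le_exp.2
      linarith
    · have e0 : E (y, m) = ∅ := by
        rw [hE]
        exact if_neg h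
      rw [e0, measureReal_empty]
      exact mul_nonneg (Real.exp_pos _).le (Real.rpow_nonneg (Nat.cast_nonneg _) _)
  have hfin : ∑' p, μ (E p) ≠ ∞ := by
    have h2 : ∀ p, μ (E p) ≤ ENNReal.ofReal (Real.exp (-Real.sqrt p.1) * (p.2 : ℝ) ^ (-(1 + ε / 6))) := by
      intro p
      rw [← ofReal_measureReal (measure_ne_top μ (E p))]
      exact ENNReal.ofReal_le_ofReal (hbd p)
    refine ne_top_of_le_ne_top ?_ (ENNReal.tsum_le_tsum h2)
    rw [← ENNReal.ofReal_tsum_of_nonneg (fun p => mul_nonneg (Real.exp_pos _).le (Real.rpow_nonneg (Nat.cast_nonneg _) _)) hsum]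
    exact ENNReal.ofReal_ne_top
  filter_upwards [ae_finite_setOfPred_mem hfin, hV] with ω h1 h2
  obtain ⟨N, hN⟩ := eventually_atTop.1 h2
  obtain ⟨Y, hY⟩ := (h1.image Prod.fst).bddAbove
  filter_upwards [eventually_gt_atTop Y, eventually_ge_atTop N, eventually_ge_atTop y₀, eventually_ge_atTop 2] with y g1 g2 g3 g4 m hm
  have hmy' := hmy y m g4 hm
  by_contra hcon
  push Not at hcon
  have hmem : ω ∈ E (y, m) := by
    have e0 : E (y, m) = {ω | cnt A m y ω ∈ {k : ℕ | κ y m ≤ k}} \ WV (VB μ ℱ A (Pool.Agent.R528.RM.lp W δ) (up W δ)) m y := by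
      rw [hE]
      exact if_pos ⟨g3, hm⟩
    rw [e0]
    refine ⟨hcon, ?_⟩
    rintro ⟨n, n1, n2, n3⟩
    exact hN n (by omega) n3
  have : y ≤ Y := hY ⟨(y, m), hmem, rfl⟩
  omega

end Pool.Agent.R481.RM
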