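import Mathlib
import Pool.Agent.R528.RM.Pat2
import Pool.Agent.R528.RM.Pat4
import Pool.Agent.R528.RM.Pat5

set_option autoImplicit false
set_option linter.unusedSectionVars false
set_option linter.unusedVariables false

/-! # Windows all of whose possible elements are chosen -/

open MeasureTheory Filter Set
open scoped ENNReal Topology

namespace Pool.Agent.R481.RM

open Pool.Agent.R528.RM

variable {Ω : Type} {m0 : MeasurableSpace Ω} {μ : Measure Ω} [IsProbabilityMeasure μ]
  {ℱ : Filtration ℕ m0} {A : ℕ → Set Ω}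

/-- every cheap pattern occurs in its residue class -/
theorem pattern_law (hA : ∀ n, MeasurableSet[ℱ n] (A n)) {W : ℕ} (hW : 0 < W)
    (hd : ∀ᵐ ω ∂μ, ∀ ε : ℝ, 0 < ε → ∀ᶠ n : ℕ in atTop, |dens μ ℱ A n ω - rhoW W (n + 1)| ≤ ε * rhoW W (n + 1))
    {ε : ℝ} (hε0 : 0 < ε) (hε1 : ε < 1) :
    ∀ᵐ ω ∂μ, ∀ᶠ x : ℕ in atTop, ∀ (m₀ k : ℕ) (R : Finset ℕ),
      (∀ n ∈ R, m₀ < n ∧ n ≤ m₀ + k ∧ Nat.Coprime n W) →
      (R.card : ℝ) * Real.log (Real.log x) + k / Real.log x ≤ (1 - ε) * Real.log x →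
      ∃ m, x ≤ 2 * m ∧ m + k ≤ x ∧ m % W = m₀ % W ∧
        ∀ i, 1 ≤ i → i ≤ k → (ω ∈ A (m + i) ↔ m₀ + i ∈ R) := by
  classical
  filter_upwards [pat_all (μ := μ) (ℱ := ℱ) hA hW hd (ε := ε / 2) (by linarith) (by linarith)] with ω h1
  filter_upwards [h1, ev_log (8 * (2 * W) / ε + 1),
    (Real.tendsto_log_atTop.comp tendsto_log).eventually_ge_atTop (8 / ε)] with x g1 g2 g3 m₀ k R hR hc
  set L : ℝ := Real.log x with hL
  have g3' : 8 / ε ≤ Real.log L := g3
  have hW' : (1 : ℝ) ≤ W := by exact_mod_cast hW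
  have hL1 : 1 ≤ L := by
    have : 0 ≤ 8 * (2 * (W : ℝ)) / ε := by positivity
    linarith only [g2, this]
  have hLp : 0 < L := by linarith only [hL1]
  have g2' : 8 * (2 * (W : ℝ)) ≤ ε * L := by
    have : 8 * (2 * (W : ℝ)) / ε ≤ L := by linarith only [g2]
    rw [div_le_iff₀ hε0] at this
    linarith only [this]
  have hll : 0 < Real.log L := lt_of_lt_of_le (by positivity) g3'
  set r : ℕ := m₀ % W with hr
  set b : ℕ := W * (m₀ / W) with hb
  have hbr : b + r = m₀ := Nat.div_add_mod m₀ W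
  have hrW : r < W := Nat.mod_lt _ hW
  set H : ℕ := W * (k / W + 2) with hH
  have hkmod := Nat.div_add_mod k W
  have hkW := Nat.mod_lt k hW
  have hHe : H = W * (k / W) + 2 * W := by rw [hH]; ring
  have hHle : H ≤ k + 2 * W := by omega
  have hHge : r + k < H := by omega
  have hcheap : Cheap W (ε / 2) x (R.image (fun n => n - b)) H := by
    refine ⟨by omega, Dvd.intro _ rfl, ?_, ?_⟩
    · intro r' hr'
      obtain ⟨n, hn, rfl⟩ := Finset.mem_image.1 hr'
      obtain ⟨f1, f2, f3⟩ := hR n hn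
      refine ⟨by omega, by omega, (cop_shift ?_).1 f3⟩
      have e : n = (n - b) + b := by omega
      show n % W = (n - b) % W
      conv_lhs => rw [e, hb, Nat.add_mul_mod_self_left]
    · have e1 : (((R.image (fun n => n - b)).card : ℕ) : ℝ) ≤ R.card := by
        exact_mod_cast Finset.card_image_le
      have e2 := mul_le_mul_of_nonneg_right e1 (show 0 ≤ Real.log L + 1 by linarith only [hll])
      have e3 : (H : ℝ) / L ≤ k / L + 2 * W := by
        have f1 : (H : ℝ) ≤ k + 2 * W := by exact_mod_cast hHle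
        have f2 := div_le_div_of_nonneg_right f1 hLp.le
        have f3 : ((k : ℝ) + 2 * W) / L = k / L + 2 * W / L := by ring
        rw [f3] at f2
        have f4 : 2 * (W : ℝ) / L ≤ 2 * W := div_le_self (by linarith only [hW']) hL1
        linarith only [f2, f4]
      have e4 : (R.card : ℝ) * 8 ≤ ε * L := by
        have f1 : (R.card : ℝ) * (8 / ε) ≤ R.card * Real.log L :=
          mul_le_mul_of_nonneg_left g3' (Nat.cast_nonneg _)
        have f2 : (R.card : ℝ) * Real.log L ≤ L := by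
          have f3 : 0 ≤ (k : ℝ) / L := by positivity
          have f4 : (1 - ε) * L ≤ 1 * L := mul_le_mul_of_nonneg_right (by linarith only [hε0]) hLp.le
          linarith only [hc, f3, f4]
        have f5 : (R.card : ℝ) * (8 / ε) = R.card * 8 / ε := by ring
        rw [f5] at f1
        have f6 := f1.trans f2
        rw [div_le_iff₀ hε0] at f6
        linarith only [f6]
      nlinarith only [hc, e2, e3, e4, g2']
  obtain ⟨t, e1, e2, ⟨s, e3⟩, e4⟩ := g1 _ _ hcheap
  refine ⟨t + r, by omega, by omega, ?_, ?_⟩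
  · rw [e3, Nat.mul_add_mod, Nat.mod_eq_of_lt hrW]
  · intro i hi hik
    have h2 := e4 (r + i - 1) (by omega)
    have e5 : t + 1 + (r + i - 1) = t + r + i := by omega
    rw [e5] at h2
    rw [h2]
    show t + r + i - t ∈ _ ↔ _
    rw [show t + r + i - t = r + i by omega, Finset.mem_image]
    constructor
    · rintro ⟨n, hn, hn'⟩
      have := (hR n hn).1
      have e6 : n = m₀ + i := by omega
      rwa [← e6]
    · intro hn
      exact ⟨m₀ + i, hn, by omega⟩

/-- the integers coprime to `W` in `(m, m + k]` -/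
def copW (W m k : ℕ) : Finset ℕ := (Finset.Ioc m (m + k)).filter (fun n => Nat.Coprime n W)

lemma mem_copW {W m k n : ℕ} : n ∈ copW W m k ↔ (m < n ∧ n ≤ m + k) ∧ Nat.Coprime n W := by
  unfold copW
  rw [Finset.mem_filter, Finset.mem_Ioc]

lemma card_copW_W (W m : ℕ) : (copW W m W).card = Nat.totient W := by
  have h := Nat.filter_coprime_Ico_eq_totient W (m + 1)
  rw [← h]
  congr 1
  ext n
  rw [mem_copW, Finset.mem_filter, Finset.mem_Ico, Nat.coprime_comm]
  constructor
  · rintro ⟨h1, h2⟩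
    exact ⟨by omega, h2⟩
  · rintro ⟨h1, h2⟩
    exact ⟨by omega, h2⟩

lemma copW_add (W m a b : ℕ) : copW W m (a + b) = copW W m a ∪ copW W (m + a) b := by
  ext n
  rw [Finset.mem_union, mem_copW, mem_copW, mem_copW]
  constructor
  · rintro ⟨h1, h2⟩
    by_cases h : n ≤ m + a
    · exact Or.inl ⟨⟨h1.1, h⟩, h2⟩
    · exact Or.inr ⟨⟨by omega, by omega⟩, h2⟩
  · rintro (⟨h1, h2⟩ | ⟨h1, h2⟩)
    · exact ⟨⟨h1.1, by omega⟩, h2⟩
    · exact ⟨⟨by omega, by omega⟩, h2⟩

lemma card_copW_add (W m a b : ℕ) : (copW W m (a + b)).card = (copW W m a).card + (copW W (m + a) b).card := by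
  rw [copW_add, Finset.card_union_of_disjoint]
  rw [Finset.disjoint_left]
  intro n h1 h2
  rw [mem_copW] at h1 h2
  omega

lemma card_copW_mul (W q m : ℕ) : (copW W m (q * W)).card = q * Nat.totient W := by
  induction q generalizing m with
  | zero =>
    rw [zero_mul, zero_mul, Finset.card_eq_zero]
    ext n
    rw [mem_copW]
    simp
  | succ q ih =>
    rw [Nat.succ_mul, card_copW_add, ih, card_copW_W, Nat.succ_mul]

lemma copW_mono {W m a b : ℕ} (h : a ≤ b) : copW W m a ⊆ copW W m b := by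
  intro n hn
  rw [mem_copW] at *
  exact ⟨⟨hn.1.1, by omega⟩, hn.2⟩

lemma card_copW_le {W : ℕ} (hW : 0 < W) (m k : ℕ) : (copW W m k).card ≤ (k / W + 1) * Nat.totient W := by
  rw [← card_copW_mul]
  apply Finset.card_le_card (copW_mono _)
  have := Nat.div_add_mod k W
  have := Nat.mod_lt k hW
  rw [add_mul, one_mul, mul_comm (k / W) W]
  omega

lemma le_card_copW {W : ℕ} (m k : ℕ) : (k / W) * Nat.totient W ≤ (copW W m k).card := by
  rw [← card_copW_mul W (k / W) m]
  exact Finset.card_le_card (copW_mono (Nat.div_mul_le_self k W))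

lemma card_copW_le' {W : ℕ} (hW : 0 < W) (m k : ℕ) :
    ((copW W m k).card : ℝ) ≤ k * (Nat.totient W / W) + Nat.totient W := by
  have hW' : (0 : ℝ) < W := by exact_mod_cast hW
  have h1 : ((copW W m k).card : ℝ) ≤ ((k / W : ℕ) + 1) * Nat.totient W := by
    exact_mod_cast card_copW_le hW m k
  have h2 : ((k / W : ℕ) : ℝ) ≤ k / W := Nat.cast_div_le
  have h3 : (0 : ℝ) ≤ Nat.totient W := Nat.cast_nonneg _
  have h4 := mul_le_mul_of_nonneg_right h2 h3
  have h5 : (k : ℝ) / W * Nat.totient W = k * (Nat.totient W / W) := by ring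
  linarith

lemma le_card_copW' {W : ℕ} (hW : 0 < W) (m k : ℕ) :
    k * ((Nat.totient W : ℝ) / W) - Nat.totient W ≤ (copW W m k).card := by
  have hW' : (0 : ℝ) < W := by exact_mod_cast hW
  have h1 : ((k / W : ℕ) : ℝ) * Nat.totient W ≤ (copW W m k).card := by
    exact_mod_cast le_card_copW m k
  have h2 : (k : ℝ) / W - 1 ≤ ((k / W : ℕ) : ℝ) := by
    have h3 : k < W * (k / W + 1) := by
      have := Nat.div_add_mod k W
      have := Nat.mod_lt k hW
      rw [mul_add, mul_one]
      omega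
    have h4 : (k : ℝ) < W * ((k / W : ℕ) + 1) := by exact_mod_cast h3
    have h5 : (k : ℝ) / W ≤ (k / W : ℕ) + 1 := by
      rw [div_le_iff₀ hW']
      linarith
    linarith
  have h3 : (0 : ℝ) ≤ Nat.totient W := Nat.cast_nonneg _
  have h4 := mul_le_mul_of_nonneg_right h2 h3
  have h5 : ((k : ℝ) / W - 1) * Nat.totient W = k * (Nat.totient W / W) - Nat.totient W := by ring
  linarith

lemma loglog_small : Tendsto (fun x : ℕ => Real.log (Real.log x) / Real.log x) atTop (𝓝 0) :=
  (Real.isLittleO_log_id_atTop.tendsto_div_nhds_zero).comp tendsto_log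

/-- short full windows occur, in every residue class -/
theorem full_exist (hA : ∀ n, MeasurableSet[ℱ n] (A n)) {W : ℕ} (hW : 0 < W)
    (hd : ∀ᵐ ω ∂μ, ∀ ε : ℝ, 0 < ε → ∀ᶠ n : ℕ in atTop, |dens μ ℱ A n ω - rhoW W (n + 1)| ≤ ε * rhoW W (n + 1))
    {ε : ℝ} (hε0 : 0 < ε) (hε1 : ε < 1) :
    ∀ᵐ ω ∂μ, ∀ᶠ x : ℕ in atTop, ∀ m₀ k : ℕ,
      (k : ℝ) * Real.log (Real.log x) ≤ (1 - ε) * (W / Nat.totient W) * Real.log x →
      ∃ m, x ≤ 2 * m ∧ m + k ≤ x ∧ m % W = m₀ % W ∧
        ∀ n, m < n → n ≤ m + k → Nat.Coprime n W → ω ∈ A n := by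
  filter_upwards [pattern_law (μ := μ) (ℱ := ℱ) hA hW hd (ε := ε / 2) (by linarith) (by linarith)] with ω h1
  have hφ : (1 : ℝ) ≤ Nat.totient W := by exact_mod_cast Nat.totient_pos.2 hW
  have hW' : (1 : ℝ) ≤ W := by exact_mod_cast hW
  have hφW : (Nat.totient W : ℝ) ≤ W := by exact_mod_cast Nat.totient_le W
  filter_upwards [h1, ev_log (4 * W / ε + 1), loglog_small.eventually_lt_const (show (0 : ℝ) < ε / (4 * W) by positivity),
    (Real.tendsto_log_atTop.comp tendsto_log).eventually_ge_atTop 1] with x g1 g2 g3 g4 m₀ k hc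
  set L : ℝ := Real.log x with hL
  have g4' : 1 ≤ Real.log L := g4
  have hL1 : 1 ≤ L := by
    have : 0 ≤ 4 * (W : ℝ) / ε := by positivity
    linarith only [g2, this]
  have hLp : 0 < L := by linarith only [hL1]
  have g2' : 4 * (W : ℝ) ≤ ε * L := by
    have : 4 * (W : ℝ) / ε ≤ L := by linarith only [g2]
    rw [div_le_iff₀ hε0] at this
    linarith only [this]
  have g3' : Real.log L * (4 * W) ≤ ε * L := by
    have h : Real.log L / L < ε / (4 * W) := g3
    rw [div_lt_div_iff₀ hLp (by positivity)] at h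
    exact h.le
  have hk : (k : ℝ) ≤ W * L := by
    have e1 : (W : ℝ) / Nat.totient W ≤ W := div_le_self (by linarith) hφ
    have e2 : (k : ℝ) * 1 ≤ k * Real.log L := mul_le_mul_of_nonneg_left g4' (Nat.cast_nonneg _)
    have e3 : (1 - ε) * ((W : ℝ) / Nat.totient W) * L ≤ 1 * W * L := by
      have e4 : (1 - ε) * ((W : ℝ) / Nat.totient W) ≤ 1 * W :=
        mul_le_mul (by linarith) e1 (by positivity) (by norm_num)
      exact mul_le_mul_of_nonneg_right e4 hLp.le
    linarith
  have hcard := card_copW_le' hW m₀ k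
  obtain ⟨m, e1, e2, e3, e4⟩ := g1 m₀ k (copW W m₀ k) (fun n hn => by
    rw [mem_copW] at hn
    exact ⟨hn.1.1, hn.1.2, hn.2⟩) (by
      have f1 := mul_le_mul_of_nonneg_right hcard (show 0 ≤ Real.log L by linarith)
      have f2 : ((k : ℝ) * (Nat.totient W / W) + Nat.totient W) * Real.log L =
          (Nat.totient W / W) * (k * Real.log L) + Nat.totient W * Real.log L := by ring
      have f3 : ((Nat.totient W : ℝ) / W) * (k * Real.log L) ≤ (1 - ε) * L := by
        have := mul_le_mul_of_nonneg_left hc (show 0 ≤ (Nat.totient W : ℝ) / W by positivity)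
        refine this.trans (le_of_eq ?_)
        have h1 : (Nat.totient W : ℝ) ≠ 0 := by positivity
        have h2 : (W : ℝ) ≠ 0 := by positivity
        field_simp
      have f4 : (Nat.totient W : ℝ) * Real.log L ≤ W * Real.log L :=
        mul_le_mul_of_nonneg_right hφW (by linarith)
      have f5 : (k : ℝ) / L ≤ W := by
        rw [div_le_iff₀ hLp]
        exact hk
      nlinarith)
  refine ⟨m, e1, e2, e3, fun n h1 h2 h3 => ?_⟩
  obtain ⟨i, rfl⟩ : ∃ i, n = m + i := ⟨n - m, by omega⟩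
  rw [e4 i (by omega) (by omega), mem_copW]
  refine ⟨⟨by omega, by omega⟩, (cop_shift ?_).2 h3⟩
  show (m₀ + i) % W = (m + i) % W
  rw [Nat.add_mod, ← e3, ← Nat.add_mod]

/-- the length of windows which are never full -/
noncomputable def Kf (W : ℕ) (ε : ℝ) (n : ℕ) : ℕ :=
  ⌈(1 + ε) * (W / Nat.totient W) * (Real.log n / Real.log (Real.log n))⌉₊

lemma full_never_aux (hA : ∀ n, MeasurableSet[ℱ n] (A n)) {W : ℕ} (hW : 0 < W)
    (hcop : ∀ n, ¬ Nat.Coprime n W → A n = ∅)
    (hd : ∀ᵐ ω ∂μ, ∀ ε : ℝ, 0 < ε → ∀ᶠ n : ℕ in atTop, |dens μ ℱ A n ω - rhoW W (n + 1)| ≤ ε * rhoW W (n + 1))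
    {ε : ℝ} (hε0 : 0 < ε) (hε1 : ε < 1) :
    ∀ᵐ ω ∂μ, ∀ᶠ v : ℕ in atTop, ∃ n, v < n ∧ n ≤ v + Kf W ε v ∧ Nat.Coprime n W ∧ ω ∉ A n := by
  classical
  have hφ : (1 : ℝ) ≤ Nat.totient W := by exact_mod_cast Nat.totient_pos.2 hW
  have hW' : (1 : ℝ) ≤ W := by exact_mod_cast hW
  have hφW : (Nat.totient W : ℝ) ≤ W := by exact_mod_cast Nat.totient_le W
  set F : ℕ → Finset (Finset ℕ × ℕ) := fun n =>
    {((copW W n (Kf W ε n)).image (fun i => i - n), Kf W ε n)} with hF
  have hFc : ∀ᶠ n : ℕ in atTop, ((F n).card : ℝ) ≤ (n : ℝ) ^ (ε / 2 / 4) := by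
    filter_upwards [eventually_gt_atTop 0] with n h1
    have hn1 : (1 : ℝ) ≤ n := by exact_mod_cast h1
    rw [hF, Finset.card_singleton]
    push_cast
    exact Real.one_le_rpow hn1 (by positivity)
  filter_upwards [pat_never (μ := μ) (ℱ := ℱ) hA hW hd (ε := ε / 2) (by linarith) (by linarith) (6 * W) F hFc] with ω hω
  filter_upwards [hω, ev_log 1, (Real.tendsto_log_atTop.comp tendsto_log).eventually_ge_atTop 1,
    loglog_small.eventually_lt_const (show (0 : ℝ) < ε / (2 * W) by positivity)] with v h1 h2 h3 h4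
  by_contra hcon
  push Not at hcon
  set L : ℝ := Real.log v with hL
  have h3' : 1 ≤ Real.log L := h3
  have hLp : 0 < L := by linarith only [h2]
  have h4' : Real.log L * (2 * W) ≤ ε * L := by
    have h : Real.log L / L < ε / (2 * W) := h4
    rw [div_lt_div_iff₀ hLp (by positivity)] at h
    exact h.le
  set K := Kf W ε v with hK
  have hpos : 0 ≤ (1 + ε) * ((W : ℝ) / Nat.totient W) * (L / Real.log L) := by positivity
  have hK1 : (1 + ε) * ((W : ℝ) / Nat.totient W) * (L / Real.log L) ≤ K := Nat.le_ceil _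
  have hK2 : (K : ℝ) < (1 + ε) * ((W : ℝ) / Nat.totient W) * (L / Real.log L) + 1 := Nat.ceil_lt_add_one hpos
  have hcard : ((copW W v K).image (fun i => i - v)).card = (copW W v K).card := by
    apply Finset.card_image_of_injOn
    intro a ha b hb hab
    have ha' := (mem_copW.1 (Finset.mem_coe.1 ha)).1.1
    have hb' := (mem_copW.1 (Finset.mem_coe.1 hb)).1.1
    have : a - v = b - v := hab
    omega
  refine h1 ((copW W v K).image (fun i => i - v)) K (Finset.mem_singleton_self _) ?_ ?_ ?_ ?_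
  · intro r hr
    obtain ⟨i, hi, rfl⟩ := Finset.mem_image.1 hr
    have hi' := (mem_copW.1 hi).1
    omega
  · have e1 : (W : ℝ) / Nat.totient W ≤ W := div_le_self (by linarith) hφ
    have e2 : L / Real.log L ≤ L := div_le_self hLp.le h3'
    have e3 : (1 + ε) * ((W : ℝ) / Nat.totient W) * (L / Real.log L) ≤ 2 * W * L := by
      have e4 : (1 + ε) * ((W : ℝ) / Nat.totient W) ≤ 2 * W :=
        mul_le_mul (by linarith) e1 (by positivity) (by norm_num)
      exact mul_le_mul e4 e2 (by positivity) (by positivity)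
    have e5 : L ≤ L ^ 2 := by nlinarith
    nlinarith
  · rw [hcard]
    have f1 := le_card_copW' hW v K
    have f2 := mul_le_mul_of_nonneg_right f1 (show 0 ≤ Real.log L by linarith)
    have f3 : (1 + ε) * L ≤ (K : ℝ) * ((Nat.totient W : ℝ) / W) * Real.log L := by
      have g1 := mul_le_mul_of_nonneg_right hK1 (show 0 ≤ ((Nat.totient W : ℝ) / W) * Real.log L by positivity)
      have g2 : (1 + ε) * ((W : ℝ) / Nat.totient W) * (L / Real.log L) * (((Nat.totient W : ℝ) / W) * Real.log L) =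
          (1 + ε) * L := by
        have a1 : (Nat.totient W : ℝ) ≠ 0 := by positivity
        have a2 : (W : ℝ) ≠ 0 := by positivity
        have a3 : Real.log L ≠ 0 := by positivity
        field_simp
      rw [g2] at g1
      linarith
    have f4 : (Nat.totient W : ℝ) * Real.log L ≤ W * Real.log L :=
      mul_le_mul_of_nonneg_right hφW (by linarith)
    have f5 : 0 ≤ (K : ℝ) / L := by positivity
    have f6 : ((K : ℝ) * ((Nat.totient W : ℝ) / W) - Nat.totient W) * Real.log L =
        (K : ℝ) * ((Nat.totient W : ℝ) / W) * Real.log L - Nat.totient W * Real.log L := by ring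
    nlinarith
  · intro i hi
    show ω ∈ A (v + 1 + i) ↔ v + 1 + i - v ∈ _
    rw [Finset.mem_image]
    constructor
    · intro h
      refine ⟨v + 1 + i, mem_copW.2 ⟨⟨by omega, by omega⟩, ?_⟩, rfl⟩
      by_contra hc
      rw [hcop _ hc] at h
      exact h
    · rintro ⟨n, hn, hn'⟩
      have hn1 := mem_copW.1 hn
      have : n = v + 1 + i := by omega
      rw [← this]
      exact hcon n hn1.1.1 hn1.1.2 hn1.2

/-- long windows are never full -/
theorem full_never (hA : ∀ n, MeasurableSet[ℱ n] (A n)) {W : ℕ} (hW : 0 < W)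
    (hcop : ∀ n, ¬ Nat.Coprime n W → A n = ∅)
    (hd : ∀ᵐ ω ∂μ, ∀ ε : ℝ, 0 < ε → ∀ᶠ n : ℕ in atTop, |dens μ ℱ A n ω - rhoW W (n + 1)| ≤ ε * rhoW W (n + 1))
    {ε : ℝ} (hε0 : 0 < ε) (hε1 : ε < 1) :
    ∀ᵐ ω ∂μ, ∀ᶠ x : ℕ in atTop, ∀ k : ℕ,
      (1 + ε) * (W / Nat.totient W) * Real.log x ≤ k * Real.log (Real.log x) →
      ∀ m ≤ x, ∃ n, m < n ∧ n ≤ m + k ∧ Nat.Coprime n W ∧ ω ∉ A n := by
  have hφ : (1 : ℝ) ≤ Nat.totient W := by exact_mod_cast Nat.totient_pos.2 hW
  have hW' : (1 : ℝ) ≤ W := by exact_mod_cast hW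
  have hφW : (Nat.totient W : ℝ) ≤ W := by exact_mod_cast Nat.totient_le W
  have hq1 : (1 : ℝ) ≤ W / Nat.totient W := by
    rw [le_div_iff₀ (by linarith)]
    linarith
  filter_upwards [full_never_aux (μ := μ) (ℱ := ℱ) hA hW hcop hd hε0 hε1] with ω hω
  obtain ⟨N₁, hN₁⟩ := eventually_atTop.1 hω
  obtain ⟨N₂, hN₂⟩ := eventually_atTop.1 (ev_log (Real.exp 1))
  set N := max (max N₁ N₂) 1 with hN
  filter_upwards [loglog_small.eventually_lt_const (show (0 : ℝ) < 1 / (N + Kf W ε N + 1) by positivity),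
    ev_log (Real.exp 1), (Real.tendsto_log_atTop.comp tendsto_log).eventually_ge_atTop 1] with x g1 g2 g3 k hk m hm
  set L : ℝ := Real.log x with hL
  have g3' : 1 ≤ Real.log L := g3
  have hLp : 0 < L := lt_of_lt_of_le (Real.exp_pos 1) g2
  have hk' : (1 + ε) * ((W : ℝ) / Nat.totient W) * (L / Real.log L) ≤ k := by
    rw [← mul_div_assoc, div_le_iff₀ (by linarith)]
    exact hk
  by_cases hmN : m < N
  · obtain ⟨n, e1, e2, e3, e4⟩ := hN₁ N ((le_max_left _ _).trans (le_max_left _ _))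
    refine ⟨n, by omega, ?_, e3, e4⟩
    have e5 : ((N : ℝ) + Kf W ε N + 1) ≤ k := by
      have f1 : Real.log L / L < 1 / (N + Kf W ε N + 1) := g1
      rw [div_lt_div_iff₀ hLp (by positivity), one_mul] at f1
      have f2 : ((N : ℝ) + Kf W ε N + 1) ≤ L / Real.log L := by
        rw [le_div_iff₀ (by linarith)]
        linarith
      have f3 : 1 * (L / Real.log L) ≤ (1 + ε) * ((W : ℝ) / Nat.totient W) * (L / Real.log L) := by
        apply mul_le_mul_of_nonneg_right _ (by positivity)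
        nlinarith
      linarith
    have e6 : N + Kf W ε N + 1 ≤ k := by exact_mod_cast e5
    omega
  · push Not at hmN
    obtain ⟨n, e1, e2, e3, e4⟩ := hN₁ m (((le_max_left _ _).trans (le_max_left _ _)).trans hmN)
    refine ⟨n, e1, ?_, e3, e4⟩
    have hm2 : Real.exp 1 ≤ Real.log m := hN₂ m (((le_max_right _ _).trans (le_max_left _ _)).trans hmN)
    have hm1 : 1 ≤ m := (le_max_right _ _).trans hmN
    have hml : Real.log m ≤ L := by
      apply Real.log_le_log (by exact_mod_cast hm1)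
      exact_mod_cast hm
    have hmp : 0 < Real.log m := lt_of_lt_of_le (Real.exp_pos 1) hm2
    have hmll : 1 ≤ Real.log (Real.log m) := by
      rw [Real.le_log_iff_exp_le hmp]
      exact hm2
    have hanti := Real.log_div_self_antitoneOn (show Real.exp 1 ≤ Real.log m from hm2)
      (show Real.exp 1 ≤ L from g2) hml
    have hmono : Real.log m / Real.log (Real.log m) ≤ L / Real.log L := by
      have h5 : Real.log L / L ≤ Real.log (Real.log m) / Real.log m := hanti
      rw [div_le_div_iff₀ hLp hmp] at h5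
      rw [div_le_div_iff₀ (by linarith) (by linarith)]
      linarith
    have hKk : Kf W ε m ≤ k := by
      apply Nat.ceil_le.2
      refine le_trans ?_ hk'
      exact mul_le_mul_of_nonneg_left hmono (by positivity)
    omega

end Pool.Agent.R481.RM
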